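import Pool.Agent.PalF.Targets2
import Pool.Agent.Zex.Defs

/-!
# Conservative vector fields with a closed orbit all of whose exponents vanish: flow boxes in every
dimension
-/

set_option autoImplicit false

open scoped Manifold ContDiff Topology
open MeasureTheory Set Filter Bundle Pool.Agent.Palis
open Pool.Agent.PalF (IsSmoothVolume DivFree AttractsAlmostAll IsClosedOrbit IsTimeMap val der
  QuadMin AlmostInvariant IsSmoothField HasDiv IsFlow CrNear Approx avg)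

namespace Pool.Agent.Zfl

section Core

variable (E : Type) [NormedAddCommGroup E] [NormedSpace ℝ E] {M : Type} [TopologicalSpace M]
  [ChartedSpace E M] {d : ℕ}

/-- A flow box: in the coordinates `Φ` the field is constant; `g` is the density of `μ`. -/
structure PreBox [MeasurableSpace M] (μ : Measure M) (X : ∀ x : M, TangentSpace 𝓘(ℝ, E) x)
    (Φ : OpenPartialHomeomorph M (ℝ × Pal.E d)) (h : ℝ) (g : ℝ × Pal.E d → ℝ) : Prop where
  pos : 0 < h
  target : Φ.target = Ioo (-h) h ×ˢ Metric.ball 0 h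
  smooth : ContMDiffOn 𝓘(ℝ, E) 𝓘(ℝ, ℝ × Pal.E d) ∞ Φ Φ.source
  smooth_symm : ContMDiffOn 𝓘(ℝ, ℝ × Pal.E d) 𝓘(ℝ, E) ∞ Φ.symm Φ.target
  field : ∀ x ∈ Φ.source, (mfderiv 𝓘(ℝ, E) 𝓘(ℝ, ℝ × Pal.E d) Φ x (X x) : ℝ × Pal.E d) = (1, 0)
  gsmooth : ContDiffOn ℝ ∞ g Φ.target
  gpos : ∀ z ∈ Φ.target, 0 < g z
  meas : ∀ A ⊆ Φ.source, MeasurableSet A → μ A = ∫⁻ z in Φ '' A, ENNReal.ofReal (g z)

/-- A flow box in which `μ` is Lebesgue measure. -/
def Box [MeasurableSpace M] (μ : Measure M) (X : ∀ x : M, TangentSpace 𝓘(ℝ, E) x)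
    (Φ : OpenPartialHomeomorph M (ℝ × Pal.E d)) (h : ℝ) : Prop :=
  PreBox E μ X Φ h (fun _ => 1)

/-- A flow box that meets the closed orbit `γ` only in its axis. -/
def OrbitBox [MeasurableSpace M] (μ : Measure M) (X : ∀ x : M, TangentSpace 𝓘(ℝ, E) x)
    (γ : ℝ → M) (τ : ℝ) (Φ : OpenPartialHomeomorph M (ℝ × Pal.E d)) (h : ℝ) : Prop :=
  Box E μ X Φ h ∧ γ 0 ∈ Φ.source ∧ Φ (γ 0) = 0 ∧ (∀ s, γ s ∈ Φ.source → (Φ (γ s)).2 = 0) ∧
    8 * h < τ

end Core

/-- The return map to the section `{0} × ℝᵈ` of the flow box (second coordinate of the time `τ`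
map). -/
def pm {M : Type} [TopologicalSpace M] {d : ℕ} (φ : ℝ → M → M)
    (Φ : OpenPartialHomeomorph M (ℝ × Pal.E d)) (τ : ℝ) (y : Pal.E d) : Pal.E d :=
  (Φ (φ τ (Φ.symm (0, y)))).2

end Pool.Agent.Zfl
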