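import Pool.Agent.Zfl.PM1
import Pool.Agent.Zfl.IVS

/-!
# The almost invariance
-/

set_option autoImplicit false
set_option linter.unusedSectionVars false

open scoped Manifold ContDiff Topology
open MeasureTheory Set Filter Bundle Asymptotics Metric Pool.Agent.Palis

open Pool.Agent.PalF hiding PreBox Box OrbitBox pm bmp intI IntData T_BXF T_OBX T_OBF T_PM1 T_BMP T_IVD T_IVS T_OSC T_IVQ T_IVA

namespace Pool.Agent.Zfl

namespace IVA_

/-- A differentiable map with `Q 0 = 0` is bounded by a multiple of the norm. -/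
theorem norm_le_of_diff {d : ℕ} {Q : Pal.E d → Pal.E d} (hQ : DifferentiableAt ℝ Q 0) (h0 : Q 0 = 0) :
    ∃ C : ℝ, 1 ≤ C ∧ ∀ᶠ z in 𝓝 (0 : Pal.E d), ‖Q z‖ ≤ C * ‖z‖ := by
  have h1 : (fun z => Q z - Q 0) =O[𝓝 0] fun z => z - 0 := hQ.isBigO_sub
  obtain ⟨C, hC⟩ := h1.bound
  refine ⟨max C 1, le_max_right _ _, ?_⟩
  filter_upwards [hC] with z hz
  rw [h0, sub_zero, sub_zero] at hz
  exact hz.trans (mul_le_mul_of_nonneg_right (le_max_left _ _) (norm_nonneg _))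

theorem pow_eq_rpow {d : ℕ} (y : Pal.E d) (r : ℕ) : ‖y‖ ^ (r + 1) = (‖y‖ ^ 2) ^ (((r : ℝ) + 1) / 2) := by
  rw [← Real.rpow_natCast (‖y‖) 2, ← Real.rpow_mul (norm_nonneg _), ← Real.rpow_natCast]
  congr 1
  push_cast
  ring

end IVA_

open IVA_

theorem iva1 (hB : T_BMP) (hP : T_PIN) (hO : T_OSC) : T_IVA := by
  intro d E _ _ _ M _ _ _ _ _ _ μ X γ τ Φ h φ f₀ I₀ b θ r hd hlo ε hε
  obtain ⟨-, hform⟩ := ivs1 hB hP d E M μ X γ τ Φ h φ f₀ I₀ b θ hd
  have hP1 := pm11 d E M μ X γ τ Φ h φ hd.field hd.orbit hd.box hd.flow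
  obtain ⟨hP0, hPs, δ, hδ, hδh, hPδ⟩ := hP1 τ (Or.inl rfl)
  obtain ⟨hQ0, hQs, -⟩ := hP1 (-τ) (Or.inr rfl)
  have hh : 0 < h := hd.box.1.pos
  have hτ := hd.orbit.2.2.1
  -- smoothness of the averages
  have hf1s : ContDiff ℝ ∞ (fun z : ℝ × Pal.E d => f₀ z * I₀ z.2) :=
    hd.f_smooth.mul (hd.I_smooth.comp contDiff_snd)
  have hb0 := hB d E M μ X Φ h f₀ hd.box.1 hd.f_smooth hd.f_supp
  have hb1 := hB d E M μ X Φ h (fun z => f₀ z * I₀ z.2) hd.box.1 hf1s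
    (fun z hz => hd.f_supp z (left_ne_zero_of_mul hz))
  have hDs := (hP E M X φ (bmp Φ f₀) τ hd.field hd.flow hb0).1
  have hDc : Continuous (avg φ τ (bmp Φ f₀)) := hDs.continuous
  -- bound for `f₀`
  obtain ⟨F, hF0, hF⟩ : ∃ F : ℝ, 0 ≤ F ∧ ∀ z, f₀ z ≤ F := by
    have hc : IsCompact (Icc (-(h / 4)) (h / 4) ×ˢ closedBall (0 : Pal.E d) (h / 4)) :=
      isCompact_Icc.prod (isCompact_closedBall _ _)
    obtain ⟨F, hF⟩ := hc.exists_bound_of_continuousOn hd.f_smooth.continuous.continuousOn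
    refine ⟨|F|, abs_nonneg _, fun z => ?_⟩
    by_cases hz : f₀ z = 0
    · rw [hz]; exact abs_nonneg _
    · obtain ⟨h1, h2⟩ := hd.f_supp z hz
      have := hF z ⟨abs_le.mp h1, mem_closedBall_zero_iff.mpr h2⟩
      exact (le_abs_self _).trans (this.trans (le_abs_self _))
  -- lower bound for the average of `f₀`
  have hcomp : IsCompact (range γ) := by
    obtain ⟨-, e2, -⟩ := obf1 d E M μ X γ τ Φ h φ hd.field hd.orbit hd.box hd.flow
    exact ORB_.range_compact hτ hd.orbit.1.continuous e2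
  obtain ⟨d₀, hd₀, hDl⟩ : ∃ d₀ : ℝ, 0 < d₀ ∧
      ∀ᶠ x in 𝓝ˢ (range γ), d₀ < avg φ τ (bmp Φ f₀) x := by
    obtain ⟨q, hq, hmin⟩ := hcomp.exists_isMinOn (range_nonempty γ) hDc.continuousOn
    have hpos : 0 < avg φ τ (bmp Φ f₀) q := by
      exact (hform.self_of_nhdsSet q hq).1
    refine ⟨avg φ τ (bmp Φ f₀) q / 2, by positivity, ?_⟩
    rw [eventually_nhdsSet_iff_exists]
    refine ⟨{x | avg φ τ (bmp Φ f₀) q / 2 < avg φ τ (bmp Φ f₀) x},
      isOpen_lt continuous_const hDc, fun x hx => ?_, fun x hx => hx⟩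
    have : avg φ τ (bmp Φ f₀) q ≤ avg φ τ (bmp Φ f₀) x := hmin hx
    show avg φ τ (bmp Φ f₀) q / 2 < _
    linarith
  -- the inverse of the return map
  obtain ⟨C, hC1, hC⟩ := norm_le_of_diff (hQs.differentiableAt (by norm_num)) hQ0
  have hC0 : 0 < C := by linarith
  set K₀ : ℝ := C ^ 2 / b with hK₀
  have hb := hd.b_pos
  have hK₀0 : 0 < K₀ := by positivity
  set e : ℝ := ((r : ℝ) + 1) / 2 with he
  have he0 : 0 < e := by positivity
  set G : ℝ := (2 * F / d₀ + 1) * K₀ ^ e with hG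
  have hG0 : 0 < G := by positivity
  have hev1 : ∀ᶠ y in 𝓝 (0 : Pal.E d), |I₀ (pm φ Φ τ y) - I₀ y| ≤ ε / G * ‖y‖ ^ (r + 1) := by
    have := hlo.def (show 0 < ε / G by positivity)
    filter_upwards [this] with y hy
    rwa [Real.norm_eq_abs, norm_pow, norm_norm] at hy
  have hev2 : ∀ᶠ y in 𝓝 (0 : Pal.E d), ‖y‖ ≤ C * ‖pm φ Φ τ y‖ := by
    have h1 : ∀ᶠ y in 𝓝 (0 : Pal.E d), ‖pm φ Φ (-τ) (pm φ Φ τ y)‖ ≤ C * ‖pm φ Φ τ y‖ := by
      have hc : Tendsto (pm φ Φ τ) (𝓝 0) (𝓝 0) := by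
        have := hPs.continuousAt.tendsto
        rwa [hP0] at this
      exact hc.eventually hC
    filter_upwards [h1, ball_mem_nhds (0 : Pal.E d) hδ] with y hy hyδ
    rwa [(hPδ y (mem_ball_zero_iff.mp hyδ)).2.2.2.2.1] at hy
  obtain ⟨η, hη, hball⟩ := Metric.eventually_nhds_iff_ball.mp
    ((hev1.and hev2).and hd.I_low)
  have hosc := hO d E M μ X γ τ Φ h φ hd.field hd.orbit hd.box hd.flow η hη
  filter_upwards [hosc, hDl, hform, hd.θ_one] with x hx hDx hfx hθx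
  obtain ⟨y, hy, hPy, hval⟩ := hx
  obtain ⟨hDpos, hfx⟩ := hfx
  obtain ⟨⟨hy1, hy2⟩, hy3⟩ := hball y (mem_ball_zero_iff.mpr hy)
  obtain ⟨-, hy4⟩ := hball _ (mem_ball_zero_iff.mpr hPy)
  set D := avg φ τ (bmp Φ f₀) x with hD
  set N := avg φ τ (bmp Φ (fun z => f₀ z * I₀ z.2)) x with hN
  set a := min (I₀ y) (I₀ (pm φ Φ τ y)) with ha
  set A := max (I₀ y) (I₀ (pm φ Φ τ y)) with hA
  have hAa : A - a = |I₀ (pm φ Φ τ y) - I₀ y| := by
    rw [hA, ha, max_sub_min_eq_abs, abs_sub_comm, abs_sub_comm]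
  have hw0 : ∀ z, 0 ≤ bmp Φ f₀ z := by
    intro z
    unfold bmp
    split_ifs
    · exact hd.f_nonneg _
    · exact le_rfl
  have hwF : ∀ z, bmp Φ f₀ z ≤ F := by
    intro z
    unfold bmp
    split_ifs
    · exact hF _
    · exact hF0
  have hkey : ∀ s ∈ Icc 0 τ, a * bmp Φ f₀ (φ s x) ≤ bmp Φ (fun z => f₀ z * I₀ z.2) (φ s x) ∧
      bmp Φ (fun z => f₀ z * I₀ z.2) (φ s x) ≤ A * bmp Φ f₀ (φ s x) := by
    intro s hs
    unfold bmp
    split_ifs with hsrc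
    · by_cases hz : f₀ (Φ (φ s x)) = 0
      · simp [hz]
      · obtain ⟨h1, h2⟩ := hd.f_supp _ hz
        have hfn := hd.f_nonneg (Φ (φ s x))
        have h3 : a ≤ I₀ (Φ (φ s x)).2 ∧ I₀ (Φ (φ s x)).2 ≤ A := by
          rcases hval s hs hsrc h1 h2 with h4 | h4
          · rw [h4]; exact ⟨min_le_left _ _, le_max_left _ _⟩
          · rw [h4]; exact ⟨min_le_right _ _, le_max_right _ _⟩
        constructor
        · rw [mul_comm]
          exact mul_le_mul_of_nonneg_left h3.1 hfn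
        · rw [mul_comm A]
          exact mul_le_mul_of_nonneg_left h3.2 hfn
    · simp
  have hwc : Continuous fun s => bmp Φ f₀ (φ s x) :=
    hb0.continuous.comp (hd.flow.curve x).continuous
  have hvc : Continuous fun s => bmp Φ (fun z => f₀ z * I₀ z.2) (φ s x) :=
    hb1.continuous.comp (hd.flow.curve x).continuous
  have hlow : a * D ≤ N := by
    rw [hD, hN]
    unfold avg
    rw [← intervalIntegral.integral_const_mul]
    exact intervalIntegral.integral_mono_on hτ.le ((hwc.const_mul a).intervalIntegrable _ _)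
      (hvc.intervalIntegrable _ _) (fun s hs => (hkey s hs).1)
  have hupp : N ≤ A * D := by
    rw [hD, hN]
    unfold avg
    rw [← intervalIntegral.integral_const_mul]
    exact intervalIntegral.integral_mono_on hτ.le (hvc.intervalIntegrable _ _)
      ((hwc.const_mul A).intervalIntegrable _ _) (fun s hs => (hkey s hs).2)
  set Ix := intI Φ φ τ f₀ I₀ θ x with hIx
  have hIxe : Ix = N / D := by
    rw [hIx]
    unfold intI
    rw [hθx, one_mul]
  have hIa : a ≤ Ix := by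
    rw [hIxe, le_div_iff₀ hDpos]
    exact hlow
  have hIA : Ix ≤ A := by
    rw [hIxe, div_le_iff₀ hDpos]
    exact hupp
  -- the lower bound of `Ix`
  have hIlow : ‖y‖ ^ 2 ≤ K₀ * Ix := by
    have h1 : b * ‖y‖ ^ 2 ≤ C ^ 2 * a := by
      rw [ha]
      rcases min_choice (I₀ y) (I₀ (pm φ Φ τ y)) with h2 | h2
      · rw [h2]
        have h3 : 0 ≤ I₀ y := le_trans (by positivity) hy3
        have h4 : (1 : ℝ) ≤ C ^ 2 := one_le_pow₀ hC1
        nlinarith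
      · rw [h2]
        have h5 : ‖y‖ ^ 2 ≤ (C * ‖pm φ Φ τ y‖) ^ 2 :=
          pow_le_pow_left₀ (norm_nonneg _) hy2 2
        have h6 : C ^ 2 * (b * ‖pm φ Φ τ y‖ ^ 2) ≤ C ^ 2 * I₀ (pm φ Φ τ y) :=
          mul_le_mul_of_nonneg_left hy4 (by positivity)
        nlinarith
    rw [hK₀, div_mul_eq_mul_div, le_div_iff₀ hb]
    have : C ^ 2 * a ≤ C ^ 2 * Ix := mul_le_mul_of_nonneg_left hIa (by positivity)
    linarith
  have hIx0 : 0 ≤ Ix := by
    have : 0 ≤ K₀ * Ix := le_trans (by positivity) hIlow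
    exact nonneg_of_mul_nonneg_right this hK₀0
  -- the estimate of the derivative
  have hterm : ∀ s ∈ Icc 0 τ, |bmp Φ (fun z => f₀ z * I₀ z.2) (φ s x) - Ix * bmp Φ f₀ (φ s x)| ≤
      F * (A - a) := by
    intro s hs
    obtain ⟨h1, h2⟩ := hkey s hs
    have h3 := hw0 (φ s x)
    have h4 := hwF (φ s x)
    have h5 : 0 ≤ A - a := by linarith
    have h6 : bmp Φ f₀ (φ s x) * (A - a) ≤ F * (A - a) := mul_le_mul_of_nonneg_right h4 h5
    rw [abs_le]
    constructor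
    · nlinarith
    · nlinarith
  have hlie : |lieD (intI Φ φ τ f₀ I₀ θ) X x| * D ≤ 2 * F * (A - a) := by
    rw [← abs_of_pos hDpos, ← abs_mul, hfx]
    have h1 := hterm τ ⟨hτ.le, le_rfl⟩
    have h2 := hterm 0 ⟨le_rfl, hτ.le⟩
    rw [hd.flow.zero] at h2
    refine (abs_sub _ _).trans ?_
    linarith
  show |lieD (intI Φ φ τ f₀ I₀ θ) X x| ≤ ε * |Ix| ^ e
  rw [abs_of_nonneg hIx0]
  have h1 : |lieD (intI Φ φ τ f₀ I₀ θ) X x| * d₀ ≤ 2 * F * (A - a) :=
    le_trans (mul_le_mul_of_nonneg_left hDx.le (abs_nonneg _)) hlie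
  have h2 : |lieD (intI Φ φ τ f₀ I₀ θ) X x| ≤ (2 * F / d₀) * (A - a) := by
    rw [div_mul_eq_mul_div, le_div_iff₀ hd₀]
    exact h1
  have h3 : A - a ≤ ε / G * (K₀ ^ e * Ix ^ e) := by
    rw [hAa]
    refine hy1.trans (mul_le_mul_of_nonneg_left ?_ (by positivity))
    rw [pow_eq_rpow, ← Real.mul_rpow hK₀0.le hIx0]
    exact Real.rpow_le_rpow (by positivity) hIlow he0.le
  have h4 : 0 ≤ Ix ^ e := Real.rpow_nonneg hIx0 _
  have h5 : 0 < K₀ ^ e := Real.rpow_pos_of_pos hK₀0 _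
  have h6 : 0 ≤ 2 * F / d₀ := by positivity
  calc |lieD (intI Φ φ τ f₀ I₀ θ) X x| ≤ (2 * F / d₀) * (A - a) := h2
    _ ≤ (2 * F / d₀) * (ε / G * (K₀ ^ e * Ix ^ e)) := mul_le_mul_of_nonneg_left h3 h6
    _ ≤ (2 * F / d₀ + 1) * (ε / G * (K₀ ^ e * Ix ^ e)) := by
        apply mul_le_mul_of_nonneg_right (by linarith)
        positivity
    _ = ε * Ix ^ e := by
        rw [hG]
        field_simp

end Pool.Agent.Zfl
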