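import Pool.Agent.Zfl.Targets

/-!
# Orbits near the closed orbit (PALF-OSC)
-/

set_option autoImplicit false
set_option linter.unusedSectionVars false

open scoped Manifold ContDiff Topology
open MeasureTheory Set Filter Bundle Asymptotics Metric Pool.Agent.Palis

open Pool.Agent.PalF hiding PreBox Box OrbitBox pm bmp intI IntData T_BXF T_OBX T_OBF T_PM1 T_BMP T_IVD T_IVS T_OSC T_IVQ T_IVA

namespace Pool.Agent.Zfl

namespace OSC_

section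

variable {d : ℕ} {E : Type} [NormedAddCommGroup E] [NormedSpace ℝ E] {M : Type} [TopologicalSpace M]
  [ChartedSpace E M] [MeasurableSpace M] {μ : Measure M} {X : ∀ x : M, TangentSpace 𝓘(ℝ, E) x}
  {Φ : OpenPartialHomeomorph M (ℝ × Pal.E d)} {h : ℝ}

/-- the closed core in the coordinates -/
def KK (d : ℕ) (h : ℝ) : Set (ℝ × Pal.E d) := Icc (-(h / 4)) (h / 4) ×ˢ closedBall (0 : Pal.E d) (h / 4)

theorem KK_compact (d : ℕ) (h : ℝ) : IsCompact (KK d h) := isCompact_Icc.prod (isCompact_closedBall _ _)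

theorem mem_KK {z : ℝ × Pal.E d} : z ∈ KK d h ↔ |z.1| ≤ h / 4 ∧ ‖z.2‖ ≤ h / 4 := by
  unfold KK
  rw [mem_prod, mem_Icc, mem_closedBall, dist_zero_right, abs_le]

theorem KK_sub (hb : Box E μ X Φ h) : KK d h ⊆ Φ.target := by
  intro z hz
  rw [mem_KK] at hz
  have hpos := hb.pos
  rw [hb.target, mem_prod, mem_Ioo, mem_ball, dist_zero_right, ← abs_lt]
  exact ⟨by linarith [hz.1], by linarith [hz.2]⟩

/-- the part of the core given by a set of coordinates -/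
theorem core_compact [T2Space M] (hb : Box E μ X Φ h) {S : Set (ℝ × Pal.E d)} (hS : IsClosed S) :
    IsCompact (Φ.symm '' (KK d h ∩ S)) := by
  refine ((KK_compact d h).inter_right hS).image_of_continuousOn ?_
  exact Φ.continuousOn_symm.mono (inter_subset_left.trans (KK_sub hb))

theorem mem_core (hb : Box E μ X Φ h) {S : Set (ℝ × Pal.E d)} {p : M} :
    p ∈ Φ.symm '' (KK d h ∩ S) ↔
      p ∈ Φ.source ∧ |(Φ p).1| ≤ h / 4 ∧ ‖(Φ p).2‖ ≤ h / 4 ∧ Φ p ∈ S := by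
  constructor
  · rintro ⟨z, ⟨hz, hzS⟩, rfl⟩
    have ht := KK_sub hb hz
    rw [Φ.right_inv ht]
    rw [mem_KK] at hz
    exact ⟨Φ.map_target ht, hz.1, hz.2, hzS⟩
  · rintro ⟨h1, h2, h3, h4⟩
    exact ⟨Φ p, ⟨mem_KK.mpr ⟨h2, h3⟩, h4⟩, Φ.left_inv h1⟩

end

end OSC_

open OSC_ in
/-- PALF-OSC -/
theorem osc1 (hBXF : T_BXF) (hOBF : T_OBF) (hPM1 : T_PM1) : T_OSC := by
  intro d E _ _ _ M _ _ _ _ _ _ μ X γ τ Φ h φ hX hγ hbox hφ η hη
  have hb := hbox.1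
  have hh : 0 < h := hb.pos
  have hτ : 8 * h < τ := hbox.2.2.2.2
  obtain ⟨hflow, _, _, hret⟩ := hOBF d E M μ X γ τ Φ h φ hX hγ hbox hφ
  obtain ⟨hP0, hPc, δ, hδ, _, hPM⟩ := hPM1 d E M μ X γ τ Φ h φ hX hγ hbox hφ τ (Or.inl rfl)
  have hcont : Continuous (fun p : ℝ × M => φ p.1 p.2) := hφ.smooth.continuous
  -- continuity of the return map
  obtain ⟨η₂, hη₂, hPη⟩ : ∃ η₂ > 0, ∀ y : Pal.E d, ‖y‖ < η₂ → ‖pm φ Φ τ y‖ < η := by
    have h1 := Metric.continuousAt_iff.mp hPc.continuousAt η hη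
    obtain ⟨e, he, h2⟩ := h1
    refine ⟨e, he, fun y hy => ?_⟩
    have h3 := h2 (x := y) (by rwa [dist_zero_right])
    rwa [hP0, dist_zero_right] at h3
  set η' : ℝ := min η (min δ η₂) with hη'
  have hη'0 : 0 < η' := lt_min hη (lt_min hδ hη₂)
  -- the second coordinates of core points are small
  have hA : ∀ᶠ x in 𝓝ˢ (range γ), ∀ s ∈ Icc 0 τ, φ s x ∈ Φ.source → |(Φ (φ s x)).1| ≤ h / 4 →
      ‖(Φ (φ s x)).2‖ ≤ h / 4 → ‖(Φ (φ s x)).2‖ < η' := by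
    set Bd : Set M := Φ.symm '' (KK d h ∩ {z | η' ≤ ‖z.2‖}) with hBd
    have hBdc : IsCompact Bd :=
      core_compact hb (isClosed_le continuous_const (continuous_norm.comp continuous_snd))
    have hS : IsCompact (Prod.snd '' ((Icc 0 τ ×ˢ (univ : Set M)) ∩
        (fun p : ℝ × M => φ p.1 p.2) ⁻¹' Bd)) :=
      ((isCompact_Icc.prod isCompact_univ).inter_right
        (hBdc.isClosed.preimage hcont)).image continuous_snd
    rw [eventually_nhdsSet_iff_exists]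
    refine ⟨_, hS.isClosed.isOpen_compl, ?_, ?_⟩
    · rintro _ ⟨t, rfl⟩ ⟨⟨s, x⟩, ⟨⟨hs, _⟩, hsx⟩, hx⟩
      have hx' : x = γ t := hx
      have hm : φ s x ∈ Bd := hsx
      rw [hx', hflow, hBd, mem_core hb] at hm
      have h1 := hbox.2.2.2.1 _ hm.1
      have h2 : η' ≤ ‖(Φ (γ (s + t))).2‖ := hm.2.2.2
      rw [h1, norm_zero] at h2
      linarith
    · intro x hx s hs h1 h2 h3
      by_contra hcon
      refine hx ⟨(s, x), ⟨⟨hs, mem_univ _⟩, ?_⟩, rfl⟩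
      change φ s x ∈ Bd
      rw [hBd, mem_core hb]
      exact ⟨h1, h2, h3, not_lt.mp hcon⟩
  -- two core times are close to each other or almost a period apart
  have hB : ∀ᶠ x in 𝓝ˢ (range γ), ∀ s ∈ Icc 0 τ, ∀ s' ∈ Icc 0 τ,
      (φ s x ∈ Φ.source ∧ |(Φ (φ s x)).1| ≤ h / 4 ∧ ‖(Φ (φ s x)).2‖ ≤ h / 4) →
      (φ s' x ∈ Φ.source ∧ |(Φ (φ s' x)).1| ≤ h / 4 ∧ ‖(Φ (φ s' x)).2‖ ≤ h / 4) →
      s' - s < 5 * h / 8 ∨ τ - 5 * h / 8 < s' - s := by
    set C : Set M := Φ.symm '' (KK d h ∩ univ) with hC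
    have hCc : IsCompact C := core_compact hb isClosed_univ
    have hc1 : Continuous (fun p : (ℝ × ℝ) × M => φ p.1.1 p.2) :=
      hcont.comp ((continuous_fst.comp continuous_fst).prodMk continuous_snd)
    have hc2 : Continuous (fun p : (ℝ × ℝ) × M => φ p.1.2 p.2) :=
      hcont.comp ((continuous_snd.comp continuous_fst).prodMk continuous_snd)
    have hD : IsClosed {p : (ℝ × ℝ) × M | 5 * h / 8 ≤ p.1.2 - p.1.1 ∧
        p.1.2 - p.1.1 ≤ τ - 5 * h / 8} := by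
      have hc3 : Continuous (fun p : (ℝ × ℝ) × M => p.1.2 - p.1.1) := by fun_prop
      exact (isClosed_le continuous_const hc3).inter (isClosed_le hc3 continuous_const)
    have hS : IsCompact (Prod.snd '' ((((Icc 0 τ ×ˢ Icc 0 τ) ×ˢ (univ : Set M)) ∩
        {p : (ℝ × ℝ) × M | 5 * h / 8 ≤ p.1.2 - p.1.1 ∧ p.1.2 - p.1.1 ≤ τ - 5 * h / 8}) ∩
        ((fun p : (ℝ × ℝ) × M => φ p.1.1 p.2) ⁻¹' C ∩
          (fun p : (ℝ × ℝ) × M => φ p.1.2 p.2) ⁻¹' C))) :=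
      ((((isCompact_Icc.prod isCompact_Icc).prod isCompact_univ).inter_right hD).inter_right
        ((hCc.isClosed.preimage hc1).inter (hCc.isClosed.preimage hc2))).image continuous_snd
    rw [eventually_nhdsSet_iff_exists]
    refine ⟨_, hS.isClosed.isOpen_compl, ?_, ?_⟩
    · rintro _ ⟨t, rfl⟩ ⟨⟨⟨s, s'⟩, x⟩, ⟨⟨_, hd1, hd2⟩, hm1, hm2⟩, hx⟩
      have hx' : x = γ t := hx
      have hm1' : φ s x ∈ C := hm1
      have hm2' : φ s' x ∈ C := hm2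
      have hd1' : 5 * h / 8 ≤ s' - s := hd1
      have hd2' : s' - s ≤ τ - 5 * h / 8 := hd2
      rw [hx', hflow, hC, mem_core hb] at hm1' hm2'
      obtain ⟨k, hk⟩ := hret _ hm1'.1
      obtain ⟨k', hk'⟩ := hret _ hm2'.1
      have ha := abs_le.mp hm1'.2.1
      have ha' := abs_le.mp hm2'.2.1
      set a := (Φ (γ (s + t))).1
      set a' := (Φ (γ (s' + t))).1
      have he : s' - s = ((k' - k : ℤ) : ℝ) * τ + (a' - a) := by
        push_cast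
        linarith
      have hτ0 : 0 < τ := by linarith
      rcases lt_trichotomy (k' - k) 0 with hkk | hkk | hkk
      · have h1 : ((k' - k : ℤ) : ℝ) ≤ -1 := by exact_mod_cast (by omega : k' - k ≤ -1)
        nlinarith [ha.1, ha.2, ha'.1, ha'.2]
      · rw [hkk] at he
        push_cast at he
        linarith [ha.1, ha.2, ha'.1, ha'.2]
      · have h1 : (1 : ℝ) ≤ ((k' - k : ℤ) : ℝ) := by exact_mod_cast (by omega : 1 ≤ k' - k)
        nlinarith [ha.1, ha.2, ha'.1, ha'.2]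
    · intro x hx s hs s' hs' h1 h2
      by_contra hcon
      rw [not_or, not_lt, not_lt] at hcon
      refine hx ⟨((s, s'), x), ⟨⟨⟨⟨hs, hs'⟩, mem_univ _⟩, hcon.1, hcon.2⟩, ?_, ?_⟩, rfl⟩
      · change φ s x ∈ C
        rw [hC, mem_core hb]
        exact ⟨h1.1, h1.2.1, h1.2.2, mem_univ _⟩
      · change φ s' x ∈ C
        rw [hC, mem_core hb]
        exact ⟨h2.1, h2.2.1, h2.2.2, mem_univ _⟩
  filter_upwards [hA, hB] with x hAx hBx
  -- core times close to each other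
  have hnear : ∀ s s', s ≤ s' → s' - s < 5 * h / 8 →
      (φ s x ∈ Φ.source ∧ |(Φ (φ s x)).1| ≤ h / 4 ∧ ‖(Φ (φ s x)).2‖ ≤ h / 4) →
      (Φ (φ s' x)).2 = (Φ (φ s x)).2 := by
    intro s s' hss hd h1
    have ha := abs_le.mp h1.2.1
    have h2 := hBXF d E M μ X Φ h (fun _ => 1) φ hX hb hφ (φ s x) h1.1 (s' - s) (by
      rw [abs_lt]; constructor <;> linarith [ha.1, ha.2])
    rw [hφ.add, sub_add_cancel] at h2
    rw [h2.2]
  -- core times almost a period apart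
  have hfar : ∀ s s', s ∈ Icc 0 τ → s' ∈ Icc 0 τ → τ - 5 * h / 8 < s' - s →
      (φ s x ∈ Φ.source ∧ |(Φ (φ s x)).1| ≤ h / 4 ∧ ‖(Φ (φ s x)).2‖ ≤ h / 4) →
      (Φ (φ s' x)).2 = pm φ Φ τ (Φ (φ s x)).2 := by
    intro s s' hs hs' hd h1
    have hy : ‖(Φ (φ s x)).2‖ < δ :=
      lt_of_lt_of_le (hAx s hs h1.1 h1.2.1 h1.2.2) ((min_le_right _ _).trans (min_le_left _ _))
    obtain ⟨_, hθ, _, _, _, h2⟩ := hPM _ hy
    have ha := abs_le.mp h1.2.1
    have h3 := h2 (Φ (φ s x)).1 (by linarith [h1.2.1])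
    have hz : Φ.symm ((Φ (φ s x)).1, (Φ (φ s x)).2) = φ s x := Φ.left_inv h1.1
    rw [hz] at h3
    have hθ' := abs_lt.mp hθ
    have h4 := hBXF d E M μ X Φ h (fun _ => 1) φ hX hb hφ (φ τ (φ s x)) h3.1 (s' - s - τ) (by
      rw [h3.2]
      have e1 := hs'.2
      have e2 := hs.1
      rw [abs_lt]
      constructor <;> linarith [ha.1, ha.2, hθ'.1, hθ'.2])
    have e3 : φ (s' - s - τ) (φ τ (φ s x)) = φ s' x := by
      rw [hφ.add, hφ.add]
      congr 1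
      ring
    rw [e3, h3.2] at h4
    rw [h4.2]
  by_cases hex : ∃ s₀ ∈ Icc 0 τ, ∃ s₁ ∈ Icc 0 τ, τ - 5 * h / 8 < s₁ - s₀ ∧
      (φ s₀ x ∈ Φ.source ∧ |(Φ (φ s₀ x)).1| ≤ h / 4 ∧ ‖(Φ (φ s₀ x)).2‖ ≤ h / 4)
  · obtain ⟨s₀, hs₀, s₁, hs₁, hd, hc⟩ := hex
    have hsm := hAx s₀ hs₀ hc.1 hc.2.1 hc.2.2
    refine ⟨(Φ (φ s₀ x)).2, lt_of_lt_of_le hsm (min_le_left _ _),
      hPη _ (lt_of_lt_of_le hsm ((min_le_right _ _).trans (min_le_right _ _))), ?_⟩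
    intro s hs h1 h2 h3
    rcases le_total s₀ s with hle | hle
    · rcases hBx s₀ hs₀ s hs hc ⟨h1, h2, h3⟩ with h4 | h4
      · exact Or.inl (hnear s₀ s hle h4 hc)
      · exact Or.inr (hfar s₀ s hs₀ hs h4 hc)
    · left
      refine (hnear s s₀ hle ?_ ⟨h1, h2, h3⟩).symm
      have e1 := hs₁.2
      have e2 := hs.1
      linarith
  · by_cases hex2 : ∃ s₀ ∈ Icc 0 τ,
      (φ s₀ x ∈ Φ.source ∧ |(Φ (φ s₀ x)).1| ≤ h / 4 ∧ ‖(Φ (φ s₀ x)).2‖ ≤ h / 4)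
    · obtain ⟨s₀, hs₀, hc⟩ := hex2
      have hsm := hAx s₀ hs₀ hc.1 hc.2.1 hc.2.2
      refine ⟨(Φ (φ s₀ x)).2, lt_of_lt_of_le hsm (min_le_left _ _),
        hPη _ (lt_of_lt_of_le hsm ((min_le_right _ _).trans (min_le_right _ _))), ?_⟩
      intro s hs h1 h2 h3
      left
      rcases le_total s₀ s with hle | hle
      · rcases hBx s₀ hs₀ s hs hc ⟨h1, h2, h3⟩ with h4 | h4
        · exact hnear s₀ s hle h4 hc
        · exact absurd ⟨s₀, hs₀, s, hs, h4, hc⟩ hex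
      · rcases hBx s hs s₀ hs₀ ⟨h1, h2, h3⟩ hc with h4 | h4
        · exact (hnear s s₀ hle h4 ⟨h1, h2, h3⟩).symm
        · exact absurd ⟨s, hs, s₀, hs₀, h4, ⟨h1, h2, h3⟩⟩ hex
    · refine ⟨0, by rwa [norm_zero], by rwa [hP0, norm_zero], ?_⟩
      intro s hs h1 h2 h3
      exact absurd ⟨s, hs, h1, h2, h3⟩ hex2

end Pool.Agent.Zfl
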