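import Pool.Agent.Zfl.Targets2
import Pool.Agent.Zfl.PM1
import Pool.Agent.Zfl.BMP
import Pool.Agent.Zfl.OSC
import Pool.Agent.Zfl.IVD
import Pool.Agent.Zfl.IVQ
import Pool.Agent.Zfl.IVA
import Pool.Agent.PalF.ORB
import Pool.Agent.PalF.PIN

/-!
# Closed orbits all of whose exponents vanish: assembly
-/

set_option autoImplicit false
set_option linter.unusedSectionVars false

open scoped Manifold ContDiff Topology
open MeasureTheory Set Filter Bundle Asymptotics Metric Pool.Agent.Palis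

open Pool.Agent.PalF hiding PreBox Box OrbitBox pm bmp intI IntData T_BXF T_OBX T_OBF T_PM1 T_BMP T_IVD T_IVS T_OSC T_IVQ T_IVA
open Pool.Agent.Zex (Sf Pres Cs SubExp Ell)

namespace Pool.Agent.Zfl

namespace FMN_

/-- A map that preserves a symplectic form is onto. -/
theorem surj {V : Type} [NormedAddCommGroup V] [NormedSpace ℝ V] [FiniteDimensional ℝ V]
    {Ω : V →L[ℝ] V →L[ℝ] ℝ} {L : V →L[ℝ] V} (hΩ : Sf Ω) (hL : Pres Ω L) :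
    Function.Surjective L := by
  have hinj : Function.Injective (L : V →ₗ[ℝ] V) := by
    rw [← LinearMap.ker_eq_bot, LinearMap.ker_eq_bot']
    intro v hv
    apply hΩ.nd
    intro w
    have h1 : L v = 0 := hv
    rw [← hL v w, h1]
    simp
  exact LinearMap.injective_iff_surjective.1 hinj

theorem pres_left {V : Type} [NormedAddCommGroup V] [NormedSpace ℝ V] [FiniteDimensional ℝ V]
    {Ω : V →L[ℝ] V →L[ℝ] ℝ} {L B : V →L[ℝ] V} (hΩ : Sf Ω) (hL : Pres Ω L)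
    (hB : Pres Ω (B ∘L L)) : Pres Ω B := by
  intro v w
  obtain ⟨v', rfl⟩ := surj hΩ hL v
  obtain ⟨w', rfl⟩ := surj hΩ hL w
  rw [hL v' w']
  exact hB v' w'

theorem pres_comp {V : Type} [NormedAddCommGroup V] [NormedSpace ℝ V]
    {Ω : V →L[ℝ] V →L[ℝ] ℝ} {L B : V →L[ℝ] V} (hB : Pres Ω B) (hL : Pres Ω L) :
    Pres Ω (B ∘L L) := by
  intro v w
  show Ω (B (L v)) (B (L w)) = Ω v w
  rw [hB, hL]

theorem min_pos {N : ℕ} (δ : Fin N → ℝ) (h : ∀ i, 0 < δ i) : ∃ t : ℝ, 0 < t ∧ ∀ i, t < δ i := by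
  have h1 : ∀ᶠ t in 𝓝[>] (0 : ℝ), ∀ i, t < δ i := by
    rw [Filter.eventually_all]
    intro i
    filter_upwards [Ioo_mem_nhdsGT (h i)] with t ht
    exact ht.2
  obtain ⟨t, ht1, ht2⟩ := (h1.and self_mem_nhdsWithin).exists
  exact ⟨t, ht2, ht1⟩

end FMN_

open FMN_ ENG_ ORB_

theorem p_FMN (hFLM : T_FLM) (hVOL : T_VOL) (hDVR : T_DVR) (hENG : T_ENG) (hGRW : Zex.T_GRW)
    (hLNF : T_LNF) (hSBG : T_SBG) (hSBX : T_SBX) (hOBY : T_OBY) (hHTA : T_HTA) (hHTB : T_HTB) :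
    T_FMN := by
  intro d E _ _ _ _ _ M _ _ _ _ _ _ _ _ μ X γ τ r₀ Φ₀ F Ω hμ hX hdiv hγ hF hp hp0 hsm hsms hfield
    hmeas hΩ hpres hroot
  obtain ⟨hfin, hopen, -⟩ := hVOL E M μ hμ
  apply approx_mono (Nat.le_succ r₀)
  set r : ℕ := r₀ + 1 with hr
  have hr1 : 1 ≤ r := by omega
  obtain ⟨φ, hφ⟩ := hFLM E M X hX
  have hFφ : ∀ x, F x = φ τ x := by
    intro x
    obtain ⟨c, hc, hc0, hcτ⟩ := hF x
    have h1 : c = fun t => φ t x := curve_uniq hX hc (hφ.curve x) (by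
      show c 0 = φ 0 x
      rw [hc0, hφ.zero])
    rw [← hcτ, h1]
  obtain ⟨Φ₁, h₁, hb, hp₁, hco, hcos⟩ := hSBX d E M μ X (γ 0) Φ₀ hp hp0 hsm hsms hfield hmeas
  obtain ⟨Φ, h, hob, hco', hcos'⟩ := hOBY d E M μ X γ τ Φ₁ h₁ hX hγ hb hp₁ (by rw [hco]; exact hp0)
  have hpm : (fun y : Pal.E d => (Φ₀ (F (Φ₀.symm (0, y)))).2) = pm φ Φ τ := by
    funext y
    unfold pm
    rw [hFφ, hco', hcos', hco, hcos]
  rw [hpm] at hpres hroot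
  obtain ⟨hP0, hPs, δ₀, hδ₀, hδh, hPδ⟩ := pm11 d E M μ X γ τ Φ h φ hX hγ hob hφ τ (Or.inl rfl)
  set L : Pal.E d →L[ℝ] Pal.E d := fderiv ℝ (pm φ Φ τ) 0 with hL
  have hPL : Pres Ω L := hpres.self_of_nhds
  have hSE : SubExp L := hGRW _ L (fun z hz => (hroot z hz).le)
  obtain ⟨T, β, Z, hT, hTs⟩ := hHTA d E M μ X Φ h Ω hΩ hob.1
  intro N x₀ K ε hK hε
  choose δ hδ hδT using fun i => hTs r (x₀ i) (K i) (ε / 2) (hK i).1 (hK i).2 (by positivity)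
  obtain ⟨δm, hδm, hδmi⟩ := min_pos δ hδ
  obtain ⟨Y, J, hYs, hYn, hEll⟩ := hLNF _ Ω L hΩ hPL hSE δm hδm
  have hTY := hT Y hYs
  -- the twisted field
  obtain ⟨hγ', Φ', h', hob', hpm'⟩ := hHTB d E M μ X (T Y) γ τ Φ h Y β (Z Y) φ hX hγ hob hφ hTY
  set X' : ∀ x : M, TangentSpace 𝓘(ℝ, E) x := fun x => X x + T Y x with hX'
  obtain ⟨hX's, hDX', -⟩ := hDVR E M μ X (T Y) _ _ hX hTY.smooth
    (hasDiv_of_divFree hdiv) (hasDiv_of_divFree hTY.div)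
  have hdiv' : DivFree E μ X' := divFree_of_hasDiv hDX' fun x => by simp
  obtain ⟨φ', hφ'⟩ := hFLM E M X' hX's
  have hev := hpm' φ' hφ'
  obtain ⟨hQ0, hQs, δ₁, hδ₁, hδh₁, hQδ⟩ := pm11 d E M μ X' γ τ Φ' h' φ' hX's hγ' hob' hφ' τ
    (Or.inl rfl)
  have hder : fderiv ℝ (pm φ' Φ' τ) 0 = NormedSpace.exp Y ∘L L := by
    rw [Filter.EventuallyEq.fderiv_eq (f := fun y => NormedSpace.exp Y (pm φ Φ τ y)) hev]
    have h1 : HasFDerivAt (pm φ Φ τ) (fderiv ℝ (pm φ Φ τ) 0) 0 :=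
      (hPs.differentiableAt (by norm_num)).hasFDerivAt
    exact ((NormedSpace.exp Y).hasFDerivAt.comp 0 h1).fderiv
  have hPY : Pres Ω (NormedSpace.exp Y) := pres_left hΩ hPL hEll.pres
  have hSy : Zex.Sy Ω (pm φ' Φ' τ) := by
    have h1 : ∀ᶠ y in 𝓝 (0 : Pal.E d), ‖y‖ < δ₀ := by
      filter_upwards [ball_mem_nhds (0 : Pal.E d) hδ₀] with y hy
      rwa [mem_ball_zero_iff] at hy
    unfold Zex.Sy
    filter_upwards [hev.eventually_nhds, hpres, h1] with y hy1 hy2 hy3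
    have h2 : pm φ' Φ' τ =ᶠ[𝓝 y] fun y => NormedSpace.exp Y (pm φ Φ τ y) := hy1
    rw [h2.fderiv_eq]
    have h3 : HasFDerivAt (pm φ Φ τ) (fderiv ℝ (pm φ Φ τ) y) y :=
      ((hPδ y hy3).2.2.2.1.differentiableAt (by norm_num)).hasFDerivAt
    have h4 : fderiv ℝ (fun y => NormedSpace.exp Y (pm φ Φ τ y)) y =
        NormedSpace.exp Y ∘L fderiv ℝ (pm φ Φ τ) y :=
      ((NormedSpace.exp Y).hasFDerivAt.comp y h3).fderiv
    rw [h4]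
    exact pres_comp hPY hy2
  obtain ⟨I₀, b, hI₀s, hI₀0, hb0, hI₀b, hI₀o⟩ := hSBG _ Ω (NormedSpace.exp Y ∘L L) J r
    (pm φ' Φ' τ) hΩ hEll hr1 hQ0 (hQs.of_le (by exact_mod_cast le_top)) hder hSy
  obtain ⟨f₀, θ, hdata⟩ := ivd1 bmp1 pin1 d E M μ X' γ τ Φ' h' φ' I₀ b hX's hγ' hob' hφ' hI₀s hI₀0
    hb0 hI₀b
  have hOSC : T_OSC := osc1 bxf1 obf1 pm11
  have hQM := ivq1 (ivs1 bmp1 pin1) hOSC bxf1 obf1 bmp1 d E M μ X' γ τ Φ' h' φ' f₀ I₀ b θ hdata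
  have hAI := iva1 bmp1 pin1 hOSC d E M μ X' γ τ Φ' h' φ' f₀ I₀ b θ r hdata hI₀o
  obtain ⟨-, hper, -⟩ := obf1 d E M μ X' γ τ Φ' h' φ' hX's hγ' hob' hφ'
  have hγc : Continuous γ := hγ'.1.continuous
  have hA := hENG E M μ X' r (range γ) (intI Φ' φ' τ f₀ I₀ θ) hr1 hμ hX's hdiv'
    (range_compact hγ'.2.2.1 hγc hper) (range_nonempty γ) (orbit_invariant hX's hγ'.1)
    (orbit_transitive hγ'.2.2.1 hγ'.1 hper) hQM hAI
  obtain ⟨W, ⟨hWs, hWX, hWA⟩, hWn⟩ := hA N x₀ K (ε / 2) hK (by positivity)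
  refine ⟨W, ⟨hWs, ?_, hWA⟩, fun i => ?_⟩
  · refine ⟨transfer hWX hγ'.1 (fun t => mem_range_self t), ?_, hγ'.2.2⟩
    rw [hWX _ (mem_range_self 0)]
    exact hγ'.2.1
  · have h1 : CrNear E r X X' (x₀ i) (K i) (ε / 2) := hδT i Y (hYn.trans (hδmi i))
    have := crNear_trans hX hX's hWs (hK i).2 h1 (hWn i)
    rwa [add_halves] at this

end Pool.Agent.Zfl
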