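import Pool.Agent.Zfl.Targets2
import Pool.Agent.PalF.BoxTools
import Pool.Agent.PalF.ENG
import Pool.Agent.Zex.HAM

/-!
# Hamiltonian twist fields in a flow box
-/

set_option autoImplicit false
set_option linter.unusedSectionVars false

open scoped Manifold ContDiff Topology
open MeasureTheory Set Filter Bundle Asymptotics Metric Pool.Agent.Palis

open Pool.Agent.PalF hiding PreBox Box OrbitBox pm bmp intI IntData T_BXF T_OBX T_OBF T_PM1 T_BMP T_IVD T_IVS T_OSC T_IVQ T_IVA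
open Pool.Agent.Zex (Sf Pres Cs SubExp Ell)

namespace Pool.Agent.Zfl

namespace HTA_

section Lin

variable {V : Type} [NormedAddCommGroup V] [NormedSpace ℝ V] [FiniteDimensional ℝ V]

/-- The trace of a skew map vanishes. -/
lemma trace_skew {Ω : V →L[ℝ] V →L[ℝ] ℝ} (hΩ : Sf Ω) {S : V →L[ℝ] V}
    (hS : ∀ v w, Ω (S v) w = -Ω v (S w)) : LinearMap.trace ℝ V (S : V →ₗ[ℝ] V) = 0 := by
  let B0 : V →ₗ[ℝ] Module.Dual ℝ V :=
    { toFun := fun x => (Ω x : V →ₗ[ℝ] ℝ)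
      map_add' := fun x y => by
        ext w
        simp
      map_smul' := fun c x => by
        ext w
        simp }
  have hB0 : Function.Injective B0 := by
    rw [← LinearMap.ker_eq_bot, LinearMap.ker_eq_bot']
    intro v hv
    apply hΩ.nd
    intro w
    exact LinearMap.congr_fun hv w
  let B : V ≃ₗ[ℝ] Module.Dual ℝ V :=
    LinearMap.linearEquivOfInjective B0 hB0 (Subspace.dual_finrank_eq).symm
  have hB : ∀ x w, B x w = Ω x w := fun x w => rfl
  have h1 : LinearMap.dualMap (S : V →ₗ[ℝ] V) = B.conj (-(S : V →ₗ[ℝ] V)) := by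
    apply LinearMap.ext
    intro φ
    obtain ⟨x, rfl⟩ := B.surjective φ
    apply LinearMap.ext
    intro w
    rw [LinearEquiv.conj_apply_apply, LinearEquiv.symm_apply_apply, LinearMap.dualMap_apply]
    rw [hB, hB]
    simp only [LinearMap.neg_apply, ContinuousLinearMap.coe_coe, map_neg,
      neg_apply]
    rw [hS]
    ring
  have h2 : LinearMap.trace ℝ (Module.Dual ℝ V) (LinearMap.dualMap (S : V →ₗ[ℝ] V)) =
      LinearMap.trace ℝ V (S : V →ₗ[ℝ] V) := LinearMap.trace_transpose' (S : V →ₗ[ℝ] V)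
  have h3 := LinearMap.trace_conj' (-(S : V →ₗ[ℝ] V)) B
  rw [← h1, h2, map_neg] at h3
  linarith

/-- The field in the section, as a function of the linear part. -/
noncomputable def Zc (Ω : V →L[ℝ] V →L[ℝ] ℝ) (g : (V →L[ℝ] ℝ) →L[ℝ] V) (f : V → ℝ)
    (Y : V →L[ℝ] V) (y : V) : V :=
  f y • Y y + (1 / 2 * Ω (Y y) y) • g (fderiv ℝ f y)

lemma Zc_contDiff {Ω : V →L[ℝ] V →L[ℝ] ℝ} {g : (V →L[ℝ] ℝ) →L[ℝ] V} {f : V → ℝ}
    (hf : ContDiff ℝ ∞ f) (Y : V →L[ℝ] V) : ContDiff ℝ ∞ (Zc Ω g f Y) := by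
  have hdf : ContDiff ℝ ∞ (fun u => fderiv ℝ f u) := hf.fderiv_right le_rfl
  have h2 : ContDiff ℝ ∞ (fun p : V => Ω (Y p) p) :=
    (Ω.contDiff.comp Y.contDiff).clm_apply contDiff_id
  exact (hf.smul Y.contDiff).add ((contDiff_const.mul h2).smul (g.contDiff.comp hdf))

lemma Zc_lin (Ω : V →L[ℝ] V →L[ℝ] ℝ) (g : (V →L[ℝ] ℝ) →L[ℝ] V) (f : V → ℝ) {ι : Type}
    [Fintype ι] (c : ι → ℝ) (A : ι → V →L[ℝ] V) (y : V) :
    Zc Ω g f (∑ i, c i • A i) y = ∑ i, c i • Zc Ω g f (A i) y := by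
  let L : (V →L[ℝ] V) →ₗ[ℝ] V :=
    { toFun := fun Y => Zc Ω g f Y y
      map_add' := fun Y Y' => by
        simp only [Zc, add_apply, map_add, smul_add, mul_add, add_smul]
        abel
      map_smul' := fun a Y => by
        simp only [Zc, smul_apply, map_smul, smul_eq_mul, RingHom.id_apply, smul_add, smul_smul]
        congr 1
        · rw [mul_comm]
        · congr 1
          ring }
  have h := map_sum L (fun i => c i • A i) Finset.univ
  simp only [map_smul] at h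
  exact h

lemma Zc_skew {Ω : V →L[ℝ] V →L[ℝ] ℝ} (hΩ : Sf Ω) {g : (V →L[ℝ] ℝ) →L[ℝ] V}
    (hg : ∀ l w, Ω (g l) w = l w) {f : V → ℝ} (hf : ContDiff ℝ ∞ f) {Y : V →L[ℝ] V}
    (hY : Skew Ω Y) (u v w : V) :
    Ω (fderiv ℝ (Zc Ω g f Y) u v) w = -Ω v (fderiv ℝ (Zc Ω g f Y) u w) := by
  have hsym : ∀ v w, Ω (Y v) w = Ω (Y w) v := by
    intro v w
    rw [hY v w, Zex.HAM_.anti hΩ v (Y w), neg_neg]
  set XY : V → V := Zc Ω g f Y with hXY
  have hXYc : ContDiff ℝ ∞ XY := Zc_contDiff hf Y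
  have hXYd : Differentiable ℝ XY := hXYc.differentiable (by simp)
  let H : V → ℝ := fun z => f z * (1 / 2 * Ω (Y z) z)
  have hq : ContDiff ℝ ∞ (fun z : V => Ω (Y z) z) :=
    (Ω.contDiff.comp Y.contDiff).clm_apply contDiff_id
  have hH : ContDiff ℝ ∞ H := hf.mul (contDiff_const.mul hq)
  have hdq : ∀ z w : V, fderiv ℝ (fun z : V => Ω (Y z) z) z w = 2 * Ω (Y z) w := by
    intro z w
    have h1 : HasFDerivAt (fun z : V => Ω (Y z)) (Ω ∘L Y) z := (Ω ∘L Y).hasFDerivAt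
    have h2 := h1.clm_apply (hasFDerivAt_id z)
    have h3 : HasFDerivAt (fun z : V => Ω (Y z) z) _ z := h2
    rw [h3.fderiv]
    simp only [add_apply, ContinuousLinearMap.comp_apply,
      ContinuousLinearMap.flip_apply, id, ContinuousLinearMap.id_apply]
    rw [hsym w z]
    ring
  have hdH : ∀ z, fderiv ℝ H z = Ω (XY z) := by
    intro z
    ext w
    have h1 : HasFDerivAt f (fderiv ℝ f z) z := ((hf.differentiable (by simp)) z).hasFDerivAt
    have h2 : HasFDerivAt (fun z : V => Ω (Y z) z) (fderiv ℝ (fun z : V => Ω (Y z) z) z) z :=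
      ((hq.differentiable (by simp)) z).hasFDerivAt
    have h3 : HasFDerivAt H _ z := h1.mul (h2.const_mul (1 / 2))
    rw [h3.fderiv]
    change _ = Ω (f z • Y z + (1 / 2 * Ω (Y z) z) • g (fderiv ℝ f z)) w
    rw [map_add, map_smul, map_smul]
    simp only [add_apply, smul_apply, smul_eq_mul]
    rw [hg, hdq]
    ring
  have hd2 : ∀ v w, fderiv ℝ (fderiv ℝ H) u v w = Ω (fderiv ℝ XY u v) w := by
    intro v w
    have h1 : fderiv ℝ H = fun z => Ω (XY z) := funext hdH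
    rw [h1]
    have h2 : HasFDerivAt (fun z => Ω (XY z)) (Ω ∘L fderiv ℝ XY u) u :=
      Ω.hasFDerivAt.comp u (hXYd u).hasFDerivAt
    rw [h2.fderiv]
    rfl
  have hsy : IsSymmSndFDerivAt ℝ H u := by
    refine (hH.contDiffAt).isSymmSndFDerivAt ?_
    rw [minSmoothness_of_isRCLikeNormedField]
    exact WithTop.coe_le_coe.mpr (le_top : (2 : ℕ∞) ≤ ⊤)
  have h5 := hsy v w
  rw [hd2, hd2] at h5
  rw [h5, Zex.HAM_.anti hΩ]

/-- The field in the coordinates. -/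
noncomputable def Zf (β : ℝ → ℝ) (Z : V → V) (z : ℝ × V) : ℝ × V := (0, β z.1 • Z z.2)

lemma Zf_contDiff {β : ℝ → ℝ} {Z : V → V} (hβ : ContDiff ℝ ∞ β) (hZ : ContDiff ℝ ∞ Z) :
    ContDiff ℝ ∞ (Zf β Z) := by
  unfold Zf
  exact contDiff_const.prodMk ((hβ.comp contDiff_fst).smul (hZ.comp contDiff_snd))

lemma trace_Zf {β : ℝ → ℝ} {Z : V → V} (hβ : ContDiff ℝ ∞ β) (hZ : ContDiff ℝ ∞ Z)
    (htr : ∀ y, LinearMap.trace ℝ V (fderiv ℝ Z y : V →L[ℝ] V) = 0) (z : ℝ × V) :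
    LinearMap.trace ℝ (ℝ × V) (fderiv ℝ (Zf β Z) z : ℝ × V →L[ℝ] ℝ × V) = 0 := by
  have hb : HasFDerivAt (fun z : ℝ × V => β z.1)
      ((deriv β z.1) • (ContinuousLinearMap.fst ℝ ℝ V)) z :=
    ((hβ.differentiable (by simp) z.1).hasDerivAt).comp_hasFDerivAt z hasFDerivAt_fst
  have hJ0 : HasFDerivAt (fun z : ℝ × V => Z z.2)
      ((fderiv ℝ Z z.2) ∘L (ContinuousLinearMap.snd ℝ ℝ V)) z :=
    HasFDerivAt.comp z ((hZ.differentiable (by simp)) z.2).hasFDerivAt hasFDerivAt_snd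
  have hJ : HasFDerivAt (fun z : ℝ × V => ((0, Z z.2) : ℝ × V))
      ((ContinuousLinearMap.inr ℝ ℝ V) ∘L (fderiv ℝ Z z.2) ∘L
        (ContinuousLinearMap.snd ℝ ℝ V)) z :=
    (ContinuousLinearMap.inr ℝ ℝ V).hasFDerivAt.comp z hJ0
  have hZ1 := hb.smul hJ
  have hZ' : HasFDerivAt (Zf β Z) _ z := hZ1.congr_of_eventuallyEq (by
    filter_upwards with w
    unfold Zf
    ext1
    · simp
    · simp)
  rw [hZ'.fderiv]
  simp only [ContinuousLinearMap.toLinearMap_add, ContinuousLinearMap.toLinearMap_smul, map_add,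
    map_smul]
  have t1 : LinearMap.trace ℝ (ℝ × V) (((ContinuousLinearMap.inr ℝ ℝ V) ∘L (fderiv ℝ Z z.2) ∘L
      (ContinuousLinearMap.snd ℝ ℝ V) : ℝ × V →L[ℝ] ℝ × V) : ℝ × V →ₗ[ℝ] ℝ × V) = 0 := by
    have h1 : (((ContinuousLinearMap.inr ℝ ℝ V) ∘L (fderiv ℝ Z z.2) ∘L
      (ContinuousLinearMap.snd ℝ ℝ V) : ℝ × V →L[ℝ] ℝ × V) : ℝ × V →ₗ[ℝ] ℝ × V) =
        LinearMap.prodMap 0 (fderiv ℝ Z z.2 : V →ₗ[ℝ] V) := by
      ext x <;> simp
    rw [h1, LinearMap.trace_prodMap', htr]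
    simp
  have t2 : ∀ (ℓ : ℝ × V →L[ℝ] ℝ) (v : ℝ × V), LinearMap.trace ℝ (ℝ × V)
      ((ℓ.smulRight v : ℝ × V →L[ℝ] ℝ × V) : ℝ × V →ₗ[ℝ] ℝ × V) = ℓ v := by
    intro ℓ v
    exact LinearMap.trace_smulRight (ℓ : ℝ × V →ₗ[ℝ] ℝ) v
  rw [t1, t2]
  simp

end Lin

/-- A compactly supported divergence free field in the coordinates gives a divergence free
field. -/
lemma divFree_box (hIBP : T_IBP) {d : ℕ} {E : Type} [NormedAddCommGroup E] [NormedSpace ℝ E]
    [FiniteDimensional ℝ E] [MeasurableSpace E] [BorelSpace E] {M : Type} [TopologicalSpace M]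
    [ChartedSpace E M] [IsManifold 𝓘(ℝ, E) ∞ M] [T2Space M] [CompactSpace M] [MeasurableSpace M]
    [BorelSpace M] {μ : Measure M} [IsFiniteMeasure μ] {X : ∀ x : M, TangentSpace 𝓘(ℝ, E) x}
    {Φ : OpenPartialHomeomorph M (ℝ × Pal.E d)} {h : ℝ} (hB : Box E μ X Φ h)
    {Z : ℝ × Pal.E d → ℝ × Pal.E d} (hZs : ContDiff ℝ ∞ Z) {K : Set (ℝ × Pal.E d)}
    (hK : IsCompact K) (hKt : K ⊆ Φ.target) (hZ0 : ∀ z, z ∉ K → Z z = 0)
    (htr : ∀ z, LinearMap.trace ℝ (ℝ × Pal.E d)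
      (fderiv ℝ Z z : ℝ × Pal.E d →L[ℝ] ℝ × Pal.E d) = 0)
    {R : ∀ x : M, TangentSpace 𝓘(ℝ, E) x} (hR1 : IsSmoothField E R)
    (hR2 : ∀ x ∈ Φ.source, (mfderiv 𝓘(ℝ, E) 𝓘(ℝ, ℝ × Pal.E d) Φ x (R x) : ℝ × Pal.E d) =
      Z (Φ x)) (hR3 : ∀ x ∉ Φ.source, R x = 0) : DivFree E μ R := by
  have hZc : HasCompactSupport Z := HasCompactSupport.intro hK hZ0
  have hZt : tsupport Z ⊆ K := by
    apply closure_minimal _ hK.isClosed
    intro z hz
    by_contra hcon
    exact hz (hZ0 z hcon)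
  intro η hη
  show ∫ x, lieD η R x ∂μ = 0
  have hlc : Continuous (lieD η R) := (contMDiff_lieD hη (k := ∞) (by simp) hR1).continuous
  have hl0 : ∀ x ∉ Φ.source, lieD η R x = 0 := by
    intro x hx
    unfold lieD
    rw [hR3 x hx, map_zero]
    rfl
  rw [← setIntegral_eq_integral_of_forall_compl_eq_zero (s := Φ.source) hl0,
    BoxT_.integral_box (ν := (volume : Measure (ℝ × Pal.E d))) hB.gsmooth.continuousOn hB.gpos
      hB.meas hlc]
  obtain ⟨η', hη's, hη'e⟩ := BoxT_.cutoff Φ.open_target (isClosed_tsupport Z)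
    (hZt.trans hKt) (BoxT_.pull_contDiffOn hB.smooth_symm hη)
  have hpt : ∀ z ∈ Φ.target, (1 : ℝ) * lieD η R (Φ.symm z) = fderiv ℝ η' z (Z z) := by
    intro z hz
    rw [one_mul, BoxT_.lieD_box hB.smooth hB.smooth_symm hη R hz,
      hR2 _ (Φ.map_target hz), Φ.right_inv hz]
    by_cases hzs : z ∈ tsupport Z
    · rw [(hη'e z hzs).fderiv_eq]
    · rw [image_eq_zero_of_notMem_tsupport hzs, map_zero, map_zero]
  rw [setIntegral_congr_fun Φ.open_target.measurableSet hpt,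
    setIntegral_eq_integral_of_forall_compl_eq_zero (by
      intro z hz
      rw [hZ0 z (fun h' => hz (hKt h')), map_zero])]
  have hHaar : (volume : Measure (ℝ × Pal.E d)).IsAddHaarMeasure := by
    rw [Measure.volume_eq_prod]; infer_instance
  have hsm := Measure.isAddLeftInvariant_eq_smul (volume : Measure (ℝ × Pal.E d)) Measure.addHaar
  rw [hsm, integral_smul_nnreal_measure,
    hIBP (ℝ × Pal.E d) η' Z (hη's.of_le (by simp)) (hZs.of_le (by simp)) hZc]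
  simp only [htr, mul_zero, integral_zero, neg_zero, smul_zero]

end HTA_

open HTA_ in
theorem p_HTA (hPUL : T_PUL) (hIBP : T_IBP) : T_HTA := by
  intro d E _ _ _ _ _ M _ _ _ _ _ _ _ μ _ X Φ h Ω hΩ hB
  have hh := hB.pos
  obtain ⟨g, hg⟩ := Zex.HAM_.iso hΩ
  -- the profile in time
  let b : ContDiffBump (-(h / 2) : ℝ) := ⟨h / 16, h / 8, by positivity, by linarith⟩
  obtain ⟨β, hβ⟩ : ∃ β : ℝ → ℝ, β = b.normed volume := ⟨_, rfl⟩
  have hβs : ContDiff ℝ ∞ β := by rw [hβ]; exact b.contDiff_normed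
  have hβ0 : ∀ t, (t ≤ -(5 * h / 8) ∨ -(3 * h / 8) ≤ t) → β t = 0 := by
    intro t ht
    by_contra hne
    have h1 : t ∈ Function.support (b.normed volume) := by rw [← hβ]; exact hne
    rw [b.support_normed_eq, Metric.mem_ball, Real.dist_eq, abs_lt] at h1
    have h2 : b.rOut = h / 8 := rfl
    rw [h2] at h1
    rcases ht with ht | ht
    · linarith [h1.1]
    · linarith [h1.2]
  -- the profile in space
  let f : ContDiffBump (0 : Pal.E d) := ⟨3 * h / 8, 7 * h / 16, by linarith, by linarith⟩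
  have hf : ContDiff ℝ ∞ (f : Pal.E d → ℝ) := f.contDiff
  have hf1 : ∀ u : Pal.E d, ‖u‖ ≤ h / 4 → (f : Pal.E d → ℝ) =ᶠ[𝓝 u] fun _ => (1 : ℝ) := by
    intro u hu
    have h1 : u ∈ ball (0 : Pal.E d) (3 * h / 8) := by
      rw [mem_ball_zero_iff]; linarith
    filter_upwards [isOpen_ball.mem_nhds h1] with y hy
    exact f.one_of_mem_closedBall (ball_subset_closedBall hy)
  have hf0 : ∀ u : Pal.E d, h / 2 ≤ ‖u‖ → (f : Pal.E d → ℝ) =ᶠ[𝓝 u] fun _ => (0 : ℝ) := by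
    intro u hu
    have h1 : IsOpen {y : Pal.E d | 7 * h / 16 < ‖y‖} := isOpen_lt continuous_const continuous_norm
    have h2 : u ∈ {y : Pal.E d | 7 * h / 16 < ‖y‖} := by
      change 7 * h / 16 < ‖u‖
      linarith
    filter_upwards [h1.mem_nhds h2] with y hy
    refine f.zero_of_le_dist ?_
    rw [dist_zero_right]
    exact le_of_lt hy
  obtain ⟨Z, hZ⟩ : ∃ Z : (Pal.E d →L[ℝ] Pal.E d) → Pal.E d → Pal.E d, Z = Zc Ω g f := ⟨_, rfl⟩
  have hZs : ∀ Y, ContDiff ℝ ∞ (Z Y) := fun Y => by rw [hZ]; exact Zc_contDiff hf Y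
  have hZ1 : ∀ Y y, ‖y‖ ≤ h / 4 → Z Y y = Y y := by
    intro Y y hy
    have h1 := hf1 y hy
    have h2 : f y = 1 := h1.eq_of_nhds
    have h3 : fderiv ℝ (f : Pal.E d → ℝ) y = 0 := by
      rw [h1.fderiv_eq]
      simp
    rw [hZ]
    change f y • Y y + (1 / 2 * Ω (Y y) y) • g (fderiv ℝ (f : Pal.E d → ℝ) y) = Y y
    rw [h2, h3, map_zero, smul_zero, one_smul, add_zero]
  have hZ0 : ∀ Y y, h / 2 ≤ ‖y‖ → Z Y y = 0 := by
    intro Y y hy
    have h1 := hf0 y hy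
    have h2 : f y = 0 := h1.eq_of_nhds
    have h3 : fderiv ℝ (f : Pal.E d → ℝ) y = 0 := by
      rw [h1.fderiv_eq]
      simp
    rw [hZ]
    change f y • Y y + (1 / 2 * Ω (Y y) y) • g (fderiv ℝ (f : Pal.E d → ℝ) y) = 0
    rw [h2, h3, map_zero, smul_zero, zero_smul, add_zero]
  have hZtr : ∀ Y, Skew Ω Y → ∀ y, LinearMap.trace ℝ (Pal.E d)
      (fderiv ℝ (Z Y) y : Pal.E d →L[ℝ] Pal.E d) = 0 := by
    intro Y hY y
    rw [hZ]
    exact trace_skew hΩ (Zc_skew hΩ hg hf hY y)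
  -- the compact set
  set K₀ : Set (ℝ × Pal.E d) :=
    Icc (-(5 * h / 8)) (-(3 * h / 8)) ×ˢ closedBall (0 : Pal.E d) (h / 2) with hK₀
  have hK : IsCompact K₀ := isCompact_Icc.prod (isCompact_closedBall _ _)
  have hKt : K₀ ⊆ Φ.target := by
    rw [hB.target]
    rintro ⟨t, y⟩ ⟨ht, hy⟩
    rw [mem_closedBall] at hy
    refine ⟨⟨by have := ht.1; simp only at this; simp only; linarith,
      by have := ht.2; simp only at this; simp only; linarith⟩, ?_⟩
    rw [mem_ball]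
    simp only at hy ⊢
    linarith
  have hF0 : ∀ Y z, z ∉ K₀ → Zf β (Z Y) z = 0 := by
    intro Y z hz
    unfold Zf
    by_cases h1 : z.1 ∈ Icc (-(5 * h / 8)) (-(3 * h / 8))
    · have h2 : z.2 ∉ closedBall (0 : Pal.E d) (h / 2) := fun h2 => hz ⟨h1, h2⟩
      rw [mem_closedBall, dist_zero_right, not_le] at h2
      rw [hZ0 _ _ h2.le, smul_zero]
      rfl
    · rw [mem_Icc, not_and_or, not_le, not_le] at h1
      rw [hβ0 _ (by rcases h1 with h1 | h1 <;> [left; right] <;> exact h1.le), zero_smul]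
      rfl
  have hFs : ∀ Y, ContDiff ℝ ∞ (Zf β (Z Y)) := fun Y => Zf_contDiff hβs (hZs Y)
  have hFc : ∀ Y, HasCompactSupport (Zf β (Z Y)) := fun Y => HasCompactSupport.intro hK (hF0 Y)
  have hFt : ∀ Y, tsupport (Zf β (Z Y)) ⊆ K₀ := by
    intro Y
    apply closure_minimal _ hK.isClosed
    intro z hz
    by_contra hcon
    exact hz (hF0 Y z hcon)
  -- the basis
  let B := Module.finBasis ℝ (Pal.E d →L[ℝ] Pal.E d)
  choose R hR1 hR2 hR3 using fun i => hPUL E M (ℝ × Pal.E d) Φ (Zf β (Z (B i))) hB.smooth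
    hB.smooth_symm (hFs _) (hFc _) ((hFt _).trans hKt)
  let R' : Fin (Module.finrank ℝ (Pal.E d →L[ℝ] Pal.E d)) → VField E M ⊤ := fun i => ⟨R i, hR1 i⟩
  let T' : (Pal.E d →L[ℝ] Pal.E d) → VField E M ⊤ := fun Y => ∑ i, B.repr Y i • R' i
  have hTx : ∀ Y x, T' Y x = ∑ i, B.repr Y i • R i x := by
    intro Y x
    have h1 : ∀ s : Finset (Fin (Module.finrank ℝ (Pal.E d →L[ℝ] Pal.E d))),
        (∑ i ∈ s, B.repr Y i • R' i : VField E M ⊤) x = ∑ i ∈ s, B.repr Y i • R i x := by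
      intro s
      induction s using Finset.induction_on with
      | empty => simp
      | insert a s ha ih =>
        rw [Finset.sum_insert ha, Finset.sum_insert ha, ← ih]
        rfl
    exact h1 Finset.univ
  have hT2 : ∀ Y, ∀ x ∈ Φ.source, (mfderiv 𝓘(ℝ, E) 𝓘(ℝ, ℝ × Pal.E d) Φ x (T' Y x) :
      ℝ × Pal.E d) = Zf β (Z Y) (Φ x) := by
    intro Y x hx
    rw [hTx, map_sum]
    have h1 : ∀ i, (mfderiv 𝓘(ℝ, E) 𝓘(ℝ, ℝ × Pal.E d) Φ x (B.repr Y i • R i x) :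
        ℝ × Pal.E d) = B.repr Y i • Zf β (Z (B i)) (Φ x) := by
      intro i
      rw [← hR2 i x hx]
      exact map_smul _ _ _
    refine (Finset.sum_congr rfl fun i _ => h1 i).trans ?_
    have h2 : Z Y (Φ x).2 = ∑ i, B.repr Y i • Z (B i) (Φ x).2 := by
      rw [hZ]
      conv_lhs => rw [← B.sum_repr Y]
      exact Zc_lin Ω g f _ _ _
    have h3 : ∀ t : ℝ, ∀ y : Pal.E d,
        (∑ i, B.repr Y i • ((0, t • Z (B i) y) : ℝ × Pal.E d)) =
          ((0, t • ∑ i, B.repr Y i • Z (B i) y) : ℝ × Pal.E d) := by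
      intro t y
      refine Prod.ext ?_ ?_
      · rw [Prod.fst_sum]
        simp
      · rw [Prod.snd_sum]
        simp only [Prod.smul_snd]
        rw [Finset.smul_sum]
        exact Finset.sum_congr rfl fun i _ => smul_comm _ _ _
    unfold Zf
    rw [h2]
    exact h3 _ _
  have hT3 : ∀ Y, ∀ x ∉ Φ.source, T' Y x = 0 := by
    intro Y x hx
    rw [hTx]
    refine Finset.sum_eq_zero fun i _ => ?_
    rw [hR3 i x (Or.inl hx), smul_zero]
  refine ⟨fun Y x => T' Y x, β, Z, fun Y hY => ?_, ?_⟩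
  · refine ⟨(T' Y).contMDiff, ?_, hβs, hβ0, ?_, hZ1 Y, hZ0 Y, hT2 Y, hT3 Y⟩
    · exact divFree_box hIBP hB (hFs Y) hK hKt (hF0 Y)
        (trace_Zf hβs (hZs Y) (hZtr Y hY)) (T' Y).contMDiff (hT2 Y) (hT3 Y)
    · rw [intervalIntegral.integral_eq_integral_of_support_subset, hβ]
      · exact b.integral_normed
      · intro t ht
        by_contra hcon
        apply ht
        apply hβ0
        rw [mem_Ioc, not_and_or, not_lt, not_le] at hcon
        rcases hcon with hcon | hcon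
        · left; linarith
        · right; linarith
  · intro r x₀ K ε hKc hKs hε
    choose BR hBR0 hBR using fun i => ENG_.size_bound (hR1 i) r x₀ hKc hKs
    have hcont : Continuous (fun Y : Pal.E d →L[ℝ] Pal.E d => ∑ i, |B.repr Y i| * BR i) := by
      refine continuous_finsetSum _ fun i _ => Continuous.mul ?_ continuous_const
      have h1 : Continuous (fun Y : Pal.E d →L[ℝ] Pal.E d => B.repr Y i) :=
        (LinearMap.continuous_of_finiteDimensional (B.coord i))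
      exact h1.abs
    have hev : ∀ᶠ Y : Pal.E d →L[ℝ] Pal.E d in 𝓝 0, ∑ i, |B.repr Y i| * BR i < ε := by
      apply hcont.continuousAt.eventually (gt_mem_nhds _)
      simp
      exact hε
    obtain ⟨δ, hδ, hball⟩ := Metric.eventually_nhds_iff.1 hev
    refine ⟨δ, hδ, fun Y hY x hx k hk => ?_⟩
    have hy : extChartAt 𝓘(ℝ, E) x₀ x ∈ (extChartAt 𝓘(ℝ, E) x₀).target :=
      (extChartAt 𝓘(ℝ, E) x₀).map_source (hKs hx)
    have hkt : (k : ℕ∞) ≤ ⊤ := le_top
    have e1 : (fun z => (X z + T' Y z) - X z) = fun z => T' Y z := by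
      funext z
      abel
    have h1 : iteratedFDeriv ℝ k (localRep E (fun z => (X z + T' Y z) - X z) x₀)
        (extChartAt 𝓘(ℝ, E) x₀ x) = jetMap x₀ hkt hy (T' Y) := by
      rw [e1]
      rfl
    rw [h1]
    have h2 : jetMap x₀ hkt hy (T' Y) = ∑ i, B.repr Y i • jetMap x₀ hkt hy (R' i) := by
      show jetMap x₀ hkt hy (∑ i, B.repr Y i • R' i) = _
      rw [map_sum]
      simp only [map_smul]
    rw [h2]
    have hY' : ∑ i, |B.repr Y i| * BR i < ε := hball (by rwa [dist_zero_right])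
    refine lt_of_le_of_lt ((norm_sum_le _ _).trans (Finset.sum_le_sum fun i _ => ?_)) hY'
    rw [norm_smul, Real.norm_eq_abs]
    exact mul_le_mul_of_nonneg_left (hBR i x hx k hk) (abs_nonneg _)

end Pool.Agent.Zfl
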