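import Pool.Agent.Zfl.Targets2
import Pool.Agent.Zfl.BXF
import Pool.Agent.Zfl.OBF
import Pool.Agent.Zfl.PM1
import Pool.Agent.PalF.ORB

/-!
# The effect of the twist
-/

set_option autoImplicit false
set_option linter.unusedSectionVars false

open scoped Manifold ContDiff Topology
open MeasureTheory Set Filter Bundle Asymptotics Metric Pool.Agent.Palis

open Pool.Agent.PalF hiding PreBox Box OrbitBox pm bmp intI IntData T_BXF T_OBX T_OBF T_PM1 T_BMP T_IVD T_IVS T_OSC T_IVQ T_IVA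

namespace Pool.Agent.Zfl

namespace HTB_

theorem expY_bound {V : Type} [NormedAddCommGroup V] [NormedSpace ℝ V] [FiniteDimensional ℝ V]
    (Y : V →L[ℝ] V) (R : ℝ) : ∃ C : ℝ, 0 < C ∧ ∀ t : ℝ, |t| ≤ R →
    ‖NormedSpace.exp (t • Y)‖ ≤ C := by
  have hc : CompleteSpace V := FiniteDimensional.complete ℝ V
  have h1 : Continuous (fun t : ℝ => NormedSpace.exp (t • Y)) := by
    rw [continuous_iff_continuousAt]
    exact fun t => (hasDerivAt_exp_smul_const Y t).continuousAt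
  obtain ⟨C, hC⟩ := (isCompact_Icc (a := -R) (b := R)).exists_bound_of_continuousOn h1.continuousOn
  refine ⟨max C 1, by positivity, fun t ht => ?_⟩
  rw [abs_le] at ht
  exact (hC t ⟨ht.1, ht.2⟩).trans (le_max_left _ _)

theorem hasDerivAt_expY {V : Type} [NormedAddCommGroup V] [NormedSpace ℝ V] [FiniteDimensional ℝ V]
    (Y : V →L[ℝ] V) (w : V) (t : ℝ) :
    HasDerivAt (fun t : ℝ => NormedSpace.exp (t • Y) w) (Y (NormedSpace.exp (t • Y) w)) t := by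
  have hc : CompleteSpace V := FiniteDimensional.complete ℝ V
  have h1 := hasDerivAt_exp_smul_const' Y t
  have h2 := h1.clm_apply (hasDerivAt_const t w)
  simpa using h2

section Box

variable {E : Type} [NormedAddCommGroup E] [NormedSpace ℝ E] [FiniteDimensional ℝ E]
  {M : Type} [TopologicalSpace M] [ChartedSpace E M] [IsManifold 𝓘(ℝ, E) ∞ M]
  [MeasurableSpace M] {μ : Measure M} {X : ∀ x : M, TangentSpace 𝓘(ℝ, E) x}
  {d : ℕ} {Φ : OpenPartialHomeomorph M (ℝ × Pal.E d)} {h : ℝ} {g : ℝ × Pal.E d → ℝ}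

theorem symm_mf (hb : PreBox E μ X Φ h g) {x : M} (hx : x ∈ Φ.source)
    (v : TangentSpace 𝓘(ℝ, E) x) :
    HasMFDerivAt 𝓘(ℝ, ℝ × Pal.E d) 𝓘(ℝ, E) Φ.symm (Φ x)
      (mfderiv 𝓘(ℝ, ℝ × Pal.E d) 𝓘(ℝ, E) Φ.symm (Φ x)) ∧
    mfderiv 𝓘(ℝ, ℝ × Pal.E d) 𝓘(ℝ, E) Φ.symm (Φ x) (mfderiv 𝓘(ℝ, E) 𝓘(ℝ, ℝ × Pal.E d) Φ x v) = v := by
  have h1 : MDifferentiableAt 𝓘(ℝ, E) 𝓘(ℝ, ℝ × Pal.E d) Φ x :=
    ((hb.smooth x hx).contMDiffAt (Φ.open_source.mem_nhds hx)).mdifferentiableAt (by norm_num)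
  have h2 : MDifferentiableAt 𝓘(ℝ, ℝ × Pal.E d) 𝓘(ℝ, E) Φ.symm (Φ x) :=
    ((hb.smooth_symm _ (Φ.map_source hx)).contMDiffAt
      (Φ.open_target.mem_nhds (Φ.map_source hx))).mdifferentiableAt (by norm_num)
  refine ⟨h2.hasMFDerivAt, ?_⟩
  have h3 : HasMFDerivAt 𝓘(ℝ, E) 𝓘(ℝ, E) (Φ.symm ∘ Φ) x
      ((mfderiv 𝓘(ℝ, ℝ × Pal.E d) 𝓘(ℝ, E) Φ.symm (Φ x)).comp
        (mfderiv 𝓘(ℝ, E) 𝓘(ℝ, ℝ × Pal.E d) Φ x)) := h2.hasMFDerivAt.comp x h1.hasMFDerivAt
  have h4 : (Φ.symm ∘ Φ) =ᶠ[𝓝 x] id := by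
    filter_upwards [Φ.open_source.mem_nhds hx] with z hz
    exact Φ.left_inv hz
  have h5 : HasMFDerivAt 𝓘(ℝ, E) 𝓘(ℝ, E) (Φ.symm ∘ Φ) x
      (ContinuousLinearMap.id ℝ (TangentSpace 𝓘(ℝ, E) x)) :=
    (hasMFDerivAt_id x).congr_of_eventuallyEq h4
  have h6 := hasMFDerivAt_unique h3 h5
  exact congrArg (fun L => L v) h6

theorem eq_zero_of (hb : PreBox E μ X Φ h g) {x : M} (hx : x ∈ Φ.source)
    {v : TangentSpace 𝓘(ℝ, E) x}
    (hv : (mfderiv 𝓘(ℝ, E) 𝓘(ℝ, ℝ × Pal.E d) Φ x v : ℝ × Pal.E d) = 0) : v = 0 := by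
  have h1 := (symm_mf hb hx v).2
  rw [← h1]
  have h2 : mfderiv 𝓘(ℝ, E) 𝓘(ℝ, ℝ × Pal.E d) Φ x v = 0 := hv
  rw [h2, map_zero]
  rfl

theorem box_curve (hb : PreBox E μ X Φ h g) {V : ∀ x : M, TangentSpace 𝓘(ℝ, E) x}
    {z z' : ℝ → ℝ × Pal.E d} {s : Set ℝ} (hz : ∀ u ∈ s, z u ∈ Φ.target)
    (hd : ∀ u ∈ s, HasDerivAt z (z' u) u)
    (hV : ∀ u ∈ s, (mfderiv 𝓘(ℝ, E) 𝓘(ℝ, ℝ × Pal.E d) Φ (Φ.symm (z u)) (V (Φ.symm (z u))) : ℝ × Pal.E d) =
      z' u) : IsMIntegralCurveOn (fun u => Φ.symm (z u)) V s := by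
  intro u hu
  set x := Φ.symm (z u) with hx
  have hxs : x ∈ Φ.source := Φ.map_target (hz u hu)
  have hΦx : Φ x = z u := Φ.right_inv (hz u hu)
  obtain ⟨h1, h2⟩ := symm_mf hb hxs (V x)
  rw [hΦx] at h1
  have h3 : HasMFDerivAt 𝓘(ℝ, ℝ) 𝓘(ℝ, ℝ × Pal.E d) z u ((1 : ℝ →L[ℝ] ℝ).smulRight (z' u)) :=
    (hd u hu).hasFDerivAt.hasMFDerivAt
  have h5 := h1.comp u h3
  apply HasMFDerivAt.hasMFDerivWithinAt
  refine h5.congr_mfderiv ?_
  ext
  have h6 : mfderiv 𝓘(ℝ, ℝ × Pal.E d) 𝓘(ℝ, E) Φ.symm (z u) (z' u) = V x := by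
    rw [← h2, hΦx]
    congr 1
    exact (hV u hu).symm
  show mfderiv 𝓘(ℝ, ℝ × Pal.E d) 𝓘(ℝ, E) Φ.symm (z u) ((1 : ℝ) • (z' u)) = (1 : ℝ) • V x
  rw [one_smul, one_smul]
  exact h6

/-- The support of the twist. -/
def KK (Φ : OpenPartialHomeomorph M (ℝ × Pal.E d)) (h : ℝ) : Set M :=
  Φ.symm '' (Icc (-(5 * h / 8)) (-(3 * h / 8)) ×ˢ closedBall (0 : Pal.E d) (h / 2))

theorem KK_sub (hb : PreBox E μ X Φ h g) :
    Icc (-(5 * h / 8)) (-(3 * h / 8)) ×ˢ closedBall (0 : Pal.E d) (h / 2) ⊆ Φ.target := by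
  have h0 := hb.pos
  rw [hb.target]
  rintro ⟨t, y⟩ ⟨ht, hy⟩
  refine ⟨⟨by linarith [ht.1], by linarith [ht.2]⟩, ?_⟩
  have h1 : ‖y‖ ≤ h / 2 := by simpa using hy
  show y ∈ ball (0 : Pal.E d) h
  rw [mem_ball_zero_iff]
  linarith

theorem KK_compact (hb : PreBox E μ X Φ h g) : IsCompact (KK Φ h) :=
  (isCompact_Icc.prod (isCompact_closedBall 0 (h / 2))).image_of_continuousOn
    (Φ.symm.continuousOn.mono (KK_sub hb))

theorem off_KK (hb : PreBox E μ X Φ h g) {T : ∀ x : M, TangentSpace 𝓘(ℝ, E) x} {β : ℝ → ℝ}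
    {Y : Pal.E d →L[ℝ] Pal.E d} {Z : Pal.E d → Pal.E d} (hT : HTw E μ Φ h Y T β Z) {x : M} (hx : x ∉ KK Φ h) : T x = 0 := by
  by_cases hs : x ∈ Φ.source
  · apply eq_zero_of hb hs
    rw [hT.on_box x hs]
    have h1 : β (Φ x).1 • Z (Φ x).2 = 0 := by
      by_cases h2 : (Φ x).1 ≤ -(5 * h / 8) ∨ -(3 * h / 8) ≤ (Φ x).1
      · rw [hT.beta_supp _ h2, zero_smul]
      · push Not at h2
        by_cases h3 : ‖(Φ x).2‖ ≤ h / 2
        · exfalso
          apply hx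
          refine ⟨Φ x, ⟨⟨h2.1.le, h2.2.le⟩, ?_⟩, Φ.left_inv hs⟩
          show (Φ x).2 ∈ closedBall (0 : Pal.E d) (h / 2)
          rw [mem_closedBall_zero_iff]
          exact h3
        · push Not at h3
          have h4 := hb.pos
          rw [hT.Z_zero _ h3.le, smul_zero]
    rw [h1]
    rfl
  · exact hT.off_box x hs

theorem axis_zero (hb : PreBox E μ X Φ h g) {T : ∀ x : M, TangentSpace 𝓘(ℝ, E) x} {β : ℝ → ℝ}
    {Y : Pal.E d →L[ℝ] Pal.E d} {Z : Pal.E d → Pal.E d} (hT : HTw E μ Φ h Y T β Z) {x : M} (hx : x ∈ Φ.source → (Φ x).2 = 0) : T x = 0 := by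
  by_cases hs : x ∈ Φ.source
  · apply eq_zero_of hb hs
    have h0 := hb.pos
    rw [hT.on_box x hs, hx hs, hT.Z_lin 0 (by rw [norm_zero]; linarith), map_zero, smul_zero]
    rfl
  · exact hT.off_box x hs

/-- The small box. -/
noncomputable def sm (Φ : OpenPartialHomeomorph M (ℝ × Pal.E d)) (h : ℝ) :
    OpenPartialHomeomorph M (ℝ × Pal.E d) :=
  (Φ.symm.restrOpen (Ioo (-(h / 4)) (h / 4) ×ˢ ball (0 : Pal.E d) (h / 4))
    (isOpen_Ioo.prod isOpen_ball)).symm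

theorem sm_target' (Φ : OpenPartialHomeomorph M (ℝ × Pal.E d)) (h : ℝ) :
    (sm Φ h).target = Φ.target ∩ (Ioo (-(h / 4)) (h / 4) ×ˢ ball (0 : Pal.E d) (h / 4)) :=
  OpenPartialHomeomorph.restrOpen_source Φ.symm _ (isOpen_Ioo.prod isOpen_ball)

theorem sm_target (hb : PreBox E μ X Φ h g) :
    (sm Φ h).target = Ioo (-(h / 4)) (h / 4) ×ˢ ball (0 : Pal.E d) (h / 4) := by
  have h0 := hb.pos
  rw [sm_target' Φ h, inter_eq_right, hb.target]
  rintro ⟨t, y⟩ ⟨ht, hy⟩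
  refine ⟨⟨by linarith [ht.1], by linarith [ht.2]⟩, ?_⟩
  have h1 : ‖y‖ < h / 4 := by simpa using hy
  show y ∈ ball (0 : Pal.E d) h
  rw [mem_ball_zero_iff]
  linarith

theorem sm_source (x : M) : x ∈ (sm Φ h).source ↔
    x ∈ Φ.source ∧ Φ x ∈ Ioo (-(h / 4)) (h / 4) ×ˢ ball (0 : Pal.E d) (h / 4) := by
  constructor
  · intro hx
    have h1 : (sm Φ h) x ∈ (sm Φ h).target := (sm Φ h).map_source hx
    have h2 := sm_target' Φ h
    rw [h2] at h1
    have h3 : (sm Φ h).symm ((sm Φ h) x) = x := (sm Φ h).left_inv hx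
    have h4 : Φ.symm ((sm Φ h) x) = x := h3
    refine ⟨?_, h1.2⟩
    rw [← h4]
    exact Φ.map_target h1.1
  · rintro ⟨hx, hx2⟩
    have h2 := sm_target' Φ h
    have h3 : Φ x ∈ (sm Φ h).target := by
      rw [h2]
      exact ⟨Φ.map_source hx, hx2⟩
    have h4 : (sm Φ h).symm (Φ x) ∈ (sm Φ h).source := (sm Φ h).map_target h3
    have h5 : (sm Φ h).symm (Φ x) = x := Φ.left_inv hx
    rwa [h5] at h4

end Box

end HTB_

open HTB_

theorem p_HTB : T_HTB := by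
  intro d E _ _ _ M _ _ _ _ _ _ _ μ X T γ τ Φ h Y β Z φ hX hγ hob hφ hT
  have hman : IsManifold 𝓘(ℝ, E) 1 M := IsManifold.of_le (n := ∞) (by norm_cast)
  obtain ⟨e1, e2, e3, e4⟩ := obf1 d E M μ X γ τ Φ h φ hX hγ hob hφ
  have hPM' := pm11 d E M μ X γ τ Φ h φ hX hγ hob hφ τ (Or.inl rfl)
  have hob' := hob
  obtain ⟨hb, hp, hp0, hax, h8⟩ := hob'
  have hγ' := hγ
  obtain ⟨hc, hne, hτ, hγτ, hmin⟩ := hγ'
  have hb' : PreBox E μ X Φ h (fun _ => 1) := hb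
  have h0 : 0 < h := hb'.pos
  have hTγ : ∀ s, T (γ s) = 0 := fun s => axis_zero hb' hT (hax s)
  have hVγ : ∀ x ∈ range γ, (fun x => X x + T x) x = X x := by
    rintro _ ⟨s, rfl⟩
    show X (γ s) + T (γ s) = X (γ s)
    rw [hTγ, add_zero]
  have hsub : ∀ x ∈ (sm Φ h).source, x ∈ Φ.source := fun x hx => ((sm_source x).1 hx).1
  have hTs : ∀ x ∈ (sm Φ h).source, T x = 0 := by
    intro x hx
    obtain ⟨h1, h2⟩ := (sm_source x).1 hx
    apply off_KK hb' hT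
    rintro ⟨z, ⟨hz, hz2⟩, rfl⟩
    have h3 : Φ (Φ.symm z) = z := Φ.right_inv (KK_sub hb' ⟨hz, hz2⟩)
    rw [h3] at h2
    linarith [h2.1.1, hz.2]
  refine ⟨⟨ENG_.transfer hVγ hc fun t => ⟨t, rfl⟩, ?_, hτ, hγτ, hmin⟩, sm Φ h, h / 4,
    ⟨?_, ?_, ?_, ?_, ?_⟩, ?_⟩
  · show X (γ 0) + T (γ 0) ≠ 0
    rw [hTγ, add_zero]
    exact hne
  · refine ⟨by linarith, sm_target hb', ?_, ?_, ?_, contDiffOn_const, fun _ _ => one_pos, ?_⟩
    · exact hb'.smooth.mono hsub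
    · refine hb'.smooth_symm.mono ?_
      rw [sm_target' Φ h]
      exact inter_subset_left
    · intro x hx
      show (mfderiv 𝓘(ℝ, E) 𝓘(ℝ, ℝ × Pal.E d) Φ x (X x + T x) : ℝ × Pal.E d) = (1, 0)
      rw [hTs x hx, add_zero]
      exact hb'.field x (hsub x hx)
    · exact fun A hA hAm => hb'.meas A (fun x hx => hsub x (hA hx)) hAm
  · rw [sm_source]
    refine ⟨hp, ?_⟩
    rw [hp0]
    exact ⟨⟨by show -(h / 4) < 0; linarith, by show (0 : ℝ) < h / 4; linarith⟩,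
      mem_ball_self (by linarith)⟩
  · exact hp0
  · exact fun s hs => hax s (hsub _ hs)
  · linarith
  intro φ' hφ'
  have hV : IsSmoothField E (fun x => X x + T x) :=
    ContMDiff.add_section hX hT.smooth
  have hV1 : ContMDiff 𝓘(ℝ, E) 𝓘(ℝ, E).tangent 1
      (fun x => (⟨x, X x + T x⟩ : TangentBundle 𝓘(ℝ, E) M)) := ContMDiff.of_le hV (by norm_cast)
  obtain ⟨hP0, hPs, δ, hδ, hδh, hPM2⟩ := hPM'
  have hβc : Continuous β := hT.beta_smooth.continuous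
  obtain ⟨Cβ, hCβ0, hCβ⟩ : ∃ C : ℝ, 0 ≤ C ∧ ∀ t, |β t| ≤ C := by
    obtain ⟨C, hC⟩ := (isCompact_Icc (a := -(5 * h / 8)) (b := -(3 * h / 8))).exists_bound_of_continuousOn
      hβc.continuousOn
    refine ⟨max C 0, le_max_right _ _, fun t => ?_⟩
    by_cases h2 : t ≤ -(5 * h / 8) ∨ -(3 * h / 8) ≤ t
    · rw [hT.beta_supp _ h2, abs_zero]
      exact le_max_right _ _
    · push Not at h2
      exact (hC t ⟨h2.1.le, h2.2.le⟩).trans (le_max_left _ _)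
  obtain ⟨C₁, hC₁0, hC₁⟩ := expY_bound Y (Cβ * h)
  have hPc : ∀ᶠ y in 𝓝 (0 : Pal.E d), C₁ * ‖pm φ Φ τ y‖ < h / 4 := by
    have h1 : Tendsto (fun y => C₁ * ‖pm φ Φ τ y‖) (𝓝 0) (𝓝 (C₁ * ‖pm φ Φ τ 0‖)) :=
      (hPs.continuousAt.norm).const_mul C₁
    rw [hP0, norm_zero, mul_zero] at h1
    exact h1.eventually_lt_const (by linarith)
  -- the orbits near the closed orbit miss the support of the twist
  have hG : ContinuousOn (fun p : ℝ × Pal.E d => φ p.1 (Φ.symm (0, p.2)))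
      (univ ×ˢ ball (0 : Pal.E d) h) := by
    have h1 : Continuous (fun p : ℝ × M => φ p.1 p.2) := hφ.smooth.continuous
    have h2 : ContinuousOn (fun p : ℝ × Pal.E d => Φ.symm (0, p.2)) (univ ×ˢ ball (0 : Pal.E d) h) := by
      refine Φ.symm.continuousOn.comp (f := fun p : ℝ × Pal.E d => ((0 : ℝ), p.2))
        (by fun_prop : Continuous fun p : ℝ × Pal.E d => ((0 : ℝ), p.2)).continuousOn ?_
      intro p hp'
      show ((0 : ℝ), p.2) ∈ Φ.target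
      rw [hb'.target]
      exact ⟨⟨by linarith, h0⟩, hp'.2⟩
    exact h1.comp_continuousOn (continuousOn_fst.prodMk h2)
  have hO : IsOpen ((univ ×ˢ ball (0 : Pal.E d) h) ∩
      (fun p : ℝ × Pal.E d => φ p.1 (Φ.symm (0, p.2))) ⁻¹' (KK Φ h)ᶜ) :=
    hG.isOpen_inter_preimage (isOpen_univ.prod isOpen_ball) (KK_compact hb').isClosed.isOpen_compl
  obtain ⟨U, V, hU, hVo, hJU, hV0, hUV⟩ := generalized_tube_lemma
    (isCompact_Icc (a := -(h / 16)) (b := τ - 11 * h / 16)) (isCompact_singleton (x := (0 : Pal.E d)))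
    hO (by
      rintro ⟨s, y⟩ ⟨hs, hy⟩
      rw [mem_singleton_iff] at hy
      simp only at hy hs
      subst hy
      refine ⟨⟨mem_univ _, mem_ball_self h0⟩, ?_⟩
      show φ s (Φ.symm (0, 0)) ∉ KK Φ h
      have h1 : Φ.symm ((0 : ℝ), (0 : Pal.E d)) = γ 0 := by
        have : ((0 : ℝ), (0 : Pal.E d)) = Φ (γ 0) := hp0.symm
        rw [this]
        exact Φ.left_inv hp
      rw [h1, e1, add_zero]
      rintro ⟨z, hz, hzs⟩
      have h2 : γ s ∈ Φ.source := by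
        rw [← hzs]
        exact Φ.map_target (KK_sub hb' hz)
      have h3 : Φ (γ s) = z := by
        rw [← hzs]
        exact Φ.right_inv (KK_sub hb' hz)
      obtain ⟨k, hk⟩ := e4 s h2
      rw [h3] at hk
      have h4 := hz.1.1
      have h5 := hz.1.2
      rcases le_or_gt k 0 with h6 | h6
      · have h7 : (k : ℝ) * τ ≤ 0 :=
          mul_nonpos_of_nonpos_of_nonneg (by exact_mod_cast h6) hτ.le
        linarith [hs.1]
      · have h7 : (1 : ℝ) ≤ k := by exact_mod_cast h6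
        have h8' : τ ≤ (k : ℝ) * τ := by nlinarith
        linarith [hs.2])
  have hB : ∀ᶠ y in 𝓝 (0 : Pal.E d), ‖y‖ < δ := by
    filter_upwards [ball_mem_nhds (0 : Pal.E d) hδ] with y hy
    simpa using hy
  filter_upwards [hPc, hB, hVo.mem_nhds (hV0 rfl)] with y hy1 hy2 hy3
  have hyh : ‖y‖ < h := lt_of_lt_of_le hy2 hδh
  obtain ⟨q1, q2, -, -, -, -⟩ := hPM2 y hy2
  set x := Φ.symm (0, y) with hx
  set θ := (Φ (φ τ x)).1 with hθ
  rw [abs_lt] at q2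
  -- step 1
  have s1 : EqOn (fun s => φ' s x) (fun s => φ s x) (Ioo (-(h / 16)) (τ - 11 * h / 16)) := by
    refine isMIntegralCurveOn_Ioo_eqOn_of_contMDiff_boundaryless (t₀ := 0)
      ⟨by linarith, by linarith⟩ hV1 ((hφ'.curve x).isMIntegralCurveOn _) ?_ ?_
    · intro s hs
      have h1 := ((hφ.curve x).isMIntegralCurveOn (Ioo (-(h / 16)) (τ - 11 * h / 16))) s hs
      have h2 : ((s, y) : ℝ × Pal.E d) ∈ U ×ˢ V := ⟨hJU ⟨hs.1.le, hs.2.le⟩, hy3⟩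
      have h3 : T (φ s x) = 0 := off_KK hb' hT (hUV h2).2
      have h4 : X (φ s x) + T (φ s x) = X (φ s x) := by rw [h3, add_zero]
      show HasMFDerivWithinAt 𝓘(ℝ, ℝ) 𝓘(ℝ, E) (fun s => φ s x)
        (Ioo (-(h / 16)) (τ - 11 * h / 16)) s
        ((1 : ℝ →L[ℝ] ℝ).smulRight (X (φ s x) + T (φ s x)))
      rw [h4]
      exact h1
    · show φ' 0 x = φ 0 x
      rw [hφ.zero, hφ'.zero]
  -- step 2
  set z₁ := φ' (τ - 3 * h / 4) x with hz₁
  have s2 : z₁ = Φ.symm (θ - 3 * h / 4, pm φ Φ τ y) := by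
    have h1 : z₁ = φ (τ - 3 * h / 4) x := s1 ⟨by linarith, by linarith⟩
    have h2 : φ (τ - 3 * h / 4) x = φ (-(3 * h / 4)) (φ τ x) := by
      rw [hφ.add]
      congr 1
      ring
    obtain ⟨h3, h4⟩ := bxf1 d E M μ X Φ h (fun _ => 1) φ hX hb' hφ (φ τ x) q1 (-(3 * h / 4))
      (by
        rw [abs_lt]
        constructor <;> linarith)
    rw [h1, h2, ← Φ.left_inv h3, h4]
    rfl
  -- step 3
  set B : ℝ → ℝ := fun u => ∫ t in (θ - 3 * h / 4)..(θ - 3 * h / 4 + u), β t with hBdef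
  have hBb : ∀ u, |u| ≤ h → |B u| ≤ Cβ * h := by
    intro u hu
    have h1 := intervalIntegral.norm_integral_le_of_norm_le_const (a := θ - 3 * h / 4)
      (b := θ - 3 * h / 4 + u) (f := β) (C := Cβ) (fun t _ => hCβ t)
    have h2 : θ - 3 * h / 4 + u - (θ - 3 * h / 4) = u := by ring
    rw [h2] at h1
    exact h1.trans (mul_le_mul_of_nonneg_left hu hCβ0)
  have hexp : ∀ u, |u| ≤ h → ‖NormedSpace.exp (B u • Y) (pm φ Φ τ y)‖ < h / 4 := by
    intro u hu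
    refine lt_of_le_of_lt ((NormedSpace.exp (B u • Y)).le_opNorm _) (lt_of_le_of_lt ?_ hy1)
    exact mul_le_mul_of_nonneg_right (hC₁ _ (hBb u hu)) (norm_nonneg _)
  have hBd : ∀ u, HasDerivAt B (β (θ - 3 * h / 4 + u)) u := by
    intro u
    have h1 : HasDerivAt (fun v => ∫ t in (θ - 3 * h / 4)..v, β t) (β (θ - 3 * h / 4 + u))
        (θ - 3 * h / 4 + u) :=
      intervalIntegral.integral_hasDerivAt_right (hβc.intervalIntegrable _ _)
        hβc.aestronglyMeasurable.stronglyMeasurableAtFilter hβc.continuousAt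
    have h2 := h1.comp u ((hasDerivAt_id u).const_add (θ - 3 * h / 4))
    rw [mul_one] at h2
    exact h2
  have hzt : ∀ u ∈ Ioo (-(h / 8)) (13 * h / 16),
      ((θ - 3 * h / 4 + u, NormedSpace.exp (B u • Y) (pm φ Φ τ y)) : ℝ × Pal.E d) ∈ Φ.target := by
    intro u hu
    rw [hb'.target]
    refine ⟨⟨by linarith [hu.1], by linarith [hu.2]⟩, ?_⟩
    show NormedSpace.exp (B u • Y) (pm φ Φ τ y) ∈ ball (0 : Pal.E d) h
    rw [mem_ball_zero_iff]
    have h1 := hexp u (by rw [abs_le]; constructor <;> linarith [hu.1, hu.2])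
    linarith
  have s3 : IsMIntegralCurveOn
      (fun u => Φ.symm (θ - 3 * h / 4 + u, NormedSpace.exp (B u • Y) (pm φ Φ τ y)))
      (fun x => X x + T x) (Ioo (-(h / 8)) (13 * h / 16)) := by
    refine box_curve hb' (z := fun u => (θ - 3 * h / 4 + u, NormedSpace.exp (B u • Y) (pm φ Φ τ y)))
      (z' := fun u => (1, (β (θ - 3 * h / 4 + u)) •
        Y (NormedSpace.exp (B u • Y) (pm φ Φ τ y)))) hzt ?_ ?_
    · intro u hu
      have h1 : HasDerivAt (fun u => θ - 3 * h / 4 + u) 1 u :=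
        (hasDerivAt_id u).const_add (θ - 3 * h / 4)
      have h3 := (hasDerivAt_expY Y (pm φ Φ τ y) (B u)).scomp u (hBd u)
      exact h1.prodMk h3
    · intro u hu
      set z : ℝ × Pal.E d := (θ - 3 * h / 4 + u, NormedSpace.exp (B u • Y) (pm φ Φ τ y)) with hz
      have h1 : Φ.symm z ∈ Φ.source := Φ.map_target (hzt u hu)
      have h2 : Φ (Φ.symm z) = z := Φ.right_inv (hzt u hu)
      have h3 := hb'.field _ h1
      have h4 := hT.on_box _ h1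
      rw [h2] at h4
      have h5 : Z z.2 = Y z.2 :=
        hT.Z_lin _ (hexp u (by rw [abs_le]; constructor <;> linarith [hu.1, hu.2])).le
      rw [h5] at h4
      show (mfderiv 𝓘(ℝ, E) 𝓘(ℝ, ℝ × Pal.E d) Φ (Φ.symm z) (X (Φ.symm z) + T (Φ.symm z)) :
        ℝ × Pal.E d) = _
      rw [map_add]
      refine (congrArg₂ (fun a b : ℝ × Pal.E d => a + b) h3 h4).trans ?_
      ext1
      · simp
      · simp [hz]
  have hB0 : B 0 = 0 := by
    rw [hBdef]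
    simp
  have hE0 : NormedSpace.exp (B 0 • Y) (pm φ Φ τ y) = pm φ Φ τ y := by
    rw [hB0]
    have h1 : ((0 : ℝ) • Y) = 0 := zero_smul ℝ Y
    rw [h1, NormedSpace.exp_zero]
    rfl
  have s4 := isMIntegralCurveOn_Ioo_eqOn_of_contMDiff_boundaryless (t₀ := 0)
      (a := -(h / 8)) (b := 13 * h / 16)
      ⟨by linarith, by linarith⟩ hV1 ((hφ'.curve z₁).isMIntegralCurveOn _) s3
      (by
        show φ' 0 z₁ = Φ.symm (θ - 3 * h / 4 + 0, NormedSpace.exp (B 0 • Y) (pm φ Φ τ y))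
        rw [hφ'.zero, hE0, add_zero, s2])
  have hB1 : B (3 * h / 4) = 1 := by
    have hint : ∀ a b, IntervalIntegrable β volume a b := fun a b => hβc.intervalIntegrable a b
    have z1 : ∫ t in (-h)..(θ - 3 * h / 4), β t = 0 := by
      rw [intervalIntegral.integral_congr (g := fun _ => (0 : ℝ))]
      · simp
      · intro t ht
        rw [uIcc_of_le (by linarith)] at ht
        exact hT.beta_supp t (Or.inl (by linarith [ht.2]))
    have z2 : ∫ t in θ..h, β t = 0 := by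
      rw [intervalIntegral.integral_congr (g := fun _ => (0 : ℝ))]
      · simp
      · intro t ht
        rw [uIcc_of_le (by linarith)] at ht
        exact hT.beta_supp t (Or.inr (by linarith [ht.1]))
    have h2 : θ - 3 * h / 4 + 3 * h / 4 = θ := by ring
    have z3 := hT.beta_int
    rw [← intervalIntegral.integral_add_adjacent_intervals (hint (-h) (θ - 3 * h / 4))
      (hint _ h), ← intervalIntegral.integral_add_adjacent_intervals
      (hint (θ - 3 * h / 4) θ) (hint _ h), z1, z2, zero_add, add_zero] at z3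
    rw [hBdef]
    simp only [h2]
    exact z3
  have s5 : φ' (3 * h / 4) z₁ = Φ.symm (θ, NormedSpace.exp Y (pm φ Φ τ y)) := by
    have h1 : φ' (3 * h / 4) z₁ = Φ.symm (θ - 3 * h / 4 + 3 * h / 4,
        NormedSpace.exp (B (3 * h / 4) • Y) (pm φ Φ τ y)) := s4 ⟨by linarith, by linarith⟩
    have h2 : θ - 3 * h / 4 + 3 * h / 4 = θ := by ring
    have h3 : B (3 * h / 4) = 1 := hB1
    rw [h1, h2, h3, one_smul]
  have s6 : φ' τ x = φ' (3 * h / 4) z₁ := by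
    rw [hz₁, hφ'.add]
    congr 1
    ring
  have hBe : B (3 * h / 4) = 1 := hB1
  have hE := hexp (3 * h / 4) (by rw [abs_le]; constructor <;> linarith)
  rw [hBe, one_smul] at hE
  show (Φ (φ' τ (Φ.symm (0, y)))).2 = NormedSpace.exp Y (pm φ Φ τ y)
  rw [← hx, s6, s5, Φ.right_inv]
  rw [hb'.target]
  refine ⟨⟨by linarith, by linarith⟩, ?_⟩
  show NormedSpace.exp Y (pm φ Φ τ y) ∈ ball (0 : Pal.E d) h
  rw [mem_ball_zero_iff]
  linarith

end Pool.Agent.Zfl
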