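import Pool.Agent.Zfl.Targets2

/-!
# The linear part for flows
-/

set_option autoImplicit false

open scoped Topology
open Pool.Agent.Zex (Sf Pres Cs SubExp Ell)

namespace Pool.Agent.Zfl

theorem p_LNF (hLIN : Zex.T_LIN) (hINV : Zex.T_INV) (hLOG : T_LOG) : T_LNF := by
  intro V _ _ _ Ω L hΩ hP hS ε hε
  obtain ⟨L₀, h1, h2, hP0, -⟩ := hINV V Ω L hΩ hP
  obtain ⟨δ, hδ, hY⟩ := hLOG V Ω ε hΩ hε
  have hn : 0 < ‖L₀‖ + 1 := by positivity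
  obtain ⟨L', J, hL', hE⟩ := hLIN V Ω L hΩ hP hS (δ / (‖L₀‖ + 1)) (div_pos hδ hn)
  have hB : Pres Ω (L' ∘L L₀) := by
    intro v w
    show Ω (L' (L₀ v)) (L' (L₀ w)) = Ω v w
    rw [hE.pres, hP0]
  have hBn : ‖(L' ∘L L₀) - ContinuousLinearMap.id ℝ V‖ < δ := by
    have he : (L' ∘L L₀) - ContinuousLinearMap.id ℝ V = (L' - L) ∘L L₀ := by
      ext v
      show L' (L₀ v) - v = L' (L₀ v) - L (L₀ v)
      rw [h2]
    rw [he]
    calc ‖(L' - L) ∘L L₀‖ ≤ ‖L' - L‖ * ‖L₀‖ := ContinuousLinearMap.opNorm_comp_le _ _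
      _ ≤ δ / (‖L₀‖ + 1) * ‖L₀‖ := mul_le_mul_of_nonneg_right hL'.le (norm_nonneg _)
      _ < δ := by
        rw [div_mul_eq_mul_div, div_lt_iff₀ hn]
        have := norm_nonneg L₀
        nlinarith
  obtain ⟨Y, hsk, hYn, hexp⟩ := hY _ hB hBn
  refine ⟨Y, J, hsk, hYn, ?_⟩
  have hc : NormedSpace.exp Y ∘L L = L' := by
    rw [hexp]
    ext v
    show L' (L₀ (L v)) = L' v
    rw [h1]
  rw [hc]
  exact hE

end Pool.Agent.Zfl
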