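import Pool.Agent.Zfl.Targets
import Pool.Agent.Zex.Targets

/-!
# Targets: closed orbits all of whose exponents vanish
-/

set_option autoImplicit false

open scoped Manifold ContDiff Topology
open MeasureTheory Set Filter Bundle Asymptotics Metric Pool.Agent.Palis
open Pool.Agent.PalF (IsSmoothVolume DivFree AttractsAlmostAll IsClosedOrbit IsTimeMap val der
  QuadMin AlmostInvariant IsSmoothField HasDiv IsFlow CrNear Approx avg)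
open Pool.Agent.Zex (Sf Pres Cs SubExp Ell)

namespace Pool.Agent.Zfl

/-- `Y` is in the Lie algebra of the group of linear maps that preserve `Ω`. -/
def Skew {V : Type} [NormedAddCommGroup V] [NormedSpace ℝ V] (Ω : V →L[ℝ] V →L[ℝ] ℝ)
    (Y : V →L[ℝ] V) : Prop := ∀ v w, Ω (Y v) w = -Ω v (Y w)

/-- The logarithm of a symplectic map close to the identity. -/
def T_LOG : Prop := ∀ (V : Type) [NormedAddCommGroup V] [NormedSpace ℝ V] [FiniteDimensional ℝ V]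
  (Ω : V →L[ℝ] V →L[ℝ] ℝ) (ε : ℝ), Sf Ω → 0 < ε → ∃ δ : ℝ, 0 < δ ∧ ∀ B : V →L[ℝ] V,
    Pres Ω B → ‖B - ContinuousLinearMap.id ℝ V‖ < δ →
    ∃ Y : V →L[ℝ] V, Skew Ω Y ∧ ‖Y‖ < ε ∧ NormedSpace.exp Y = B

/-- The result of the linear part, for flows. -/
def T_LNF : Prop := ∀ (V : Type) [NormedAddCommGroup V] [NormedSpace ℝ V] [FiniteDimensional ℝ V]
  (Ω : V →L[ℝ] V →L[ℝ] ℝ) (L : V →L[ℝ] V), Sf Ω → Pres Ω L → SubExp L →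
  ∀ ε : ℝ, 0 < ε → ∃ Y J : V →L[ℝ] V, Skew Ω Y ∧ ‖Y‖ < ε ∧ Ell Ω (NormedSpace.exp Y ∘L L) J

/-- `Zex.T_SBK` with a globally smooth function. -/
def T_SBG : Prop := ∀ (V : Type) [NormedAddCommGroup V] [NormedSpace ℝ V] [FiniteDimensional ℝ V]
  (Ω : V →L[ℝ] V →L[ℝ] ℝ) (L J : V →L[ℝ] V) (r : ℕ) (T : V → V), Sf Ω → Ell Ω L J → 1 ≤ r →
  T 0 = 0 → ContDiffAt ℝ r T 0 → fderiv ℝ T 0 = L → Zex.Sy Ω T →
  ∃ (I : V → ℝ) (b : ℝ), ContDiff ℝ ∞ I ∧ I 0 = 0 ∧ 0 < b ∧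
    (∀ᶠ y in 𝓝 (0 : V), b * ‖y‖ ^ 2 ≤ I y) ∧
    (fun y => I (T y) - I y) =o[𝓝 0] (fun y => ‖y‖ ^ (r + 1))

/-- A chart in which the field is constant and `μ` is Lebesgue measure contains a box. -/
def T_SBX : Prop := ∀ (d : ℕ) (E : Type) [NormedAddCommGroup E] [NormedSpace ℝ E]
  [FiniteDimensional ℝ E] (M : Type) [TopologicalSpace M] [ChartedSpace E M]
  [IsManifold 𝓘(ℝ, E) ∞ M] [MeasurableSpace M] (μ : Measure M)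
  (X : ∀ x : M, TangentSpace 𝓘(ℝ, E) x) (p : M) (Φ : OpenPartialHomeomorph M (ℝ × Pal.E d)),
  p ∈ Φ.source → Φ p = 0 → ContMDiffOn 𝓘(ℝ, E) 𝓘(ℝ, ℝ × Pal.E d) ∞ Φ Φ.source →
  ContMDiffOn 𝓘(ℝ, ℝ × Pal.E d) 𝓘(ℝ, E) ∞ Φ.symm Φ.target →
  (∀ x ∈ Φ.source, (mfderiv 𝓘(ℝ, E) 𝓘(ℝ, ℝ × Pal.E d) Φ x (X x) : ℝ × Pal.E d) = (1, 0)) →
  (∀ A ⊆ Φ.source, MeasurableSet A → μ A = volume (Φ '' A)) →
  ∃ (Φ' : OpenPartialHomeomorph M (ℝ × Pal.E d)) (h : ℝ), Box E μ X Φ' h ∧ p ∈ Φ'.source ∧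
    (Φ' : M → ℝ × Pal.E d) = Φ ∧ (Φ'.symm : ℝ × Pal.E d → M) = Φ.symm

/-- Small boxes around a point of a closed orbit are orbit boxes (with the same coordinates). -/
def T_OBY : Prop := ∀ (d : ℕ) (E : Type) [NormedAddCommGroup E] [NormedSpace ℝ E]
  [FiniteDimensional ℝ E] (M : Type) [TopologicalSpace M] [ChartedSpace E M]
  [IsManifold 𝓘(ℝ, E) ∞ M] [T2Space M] [CompactSpace M] [MeasurableSpace M] (μ : Measure M)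
  (X : ∀ x : M, TangentSpace 𝓘(ℝ, E) x) (γ : ℝ → M) (τ : ℝ)
  (Φ : OpenPartialHomeomorph M (ℝ × Pal.E d)) (h : ℝ), IsSmoothField E X → IsClosedOrbit E X γ τ →
  Box E μ X Φ h → γ 0 ∈ Φ.source → Φ (γ 0) = 0 →
  ∃ (Φ' : OpenPartialHomeomorph M (ℝ × Pal.E d)) (h' : ℝ), OrbitBox E μ X γ τ Φ' h' ∧
    (Φ' : M → ℝ × Pal.E d) = Φ ∧ (Φ'.symm : ℝ × Pal.E d → M) = Φ.symm

/-! ## The twist -/

/-- A twist field in a box, with the linear part `Y`. -/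
structure HTw (E : Type) [NormedAddCommGroup E] [NormedSpace ℝ E] {M : Type}
    [TopologicalSpace M] [ChartedSpace E M] [IsManifold 𝓘(ℝ, E) ∞ M] [MeasurableSpace M] {d : ℕ}
    (μ : Measure M) (Φ : OpenPartialHomeomorph M (ℝ × Pal.E d)) (h : ℝ)
    (Y : Pal.E d →L[ℝ] Pal.E d) (T : ∀ x : M, TangentSpace 𝓘(ℝ, E) x) (β : ℝ → ℝ)
    (Z : Pal.E d → Pal.E d) : Prop where
  smooth : IsSmoothField E T
  div : DivFree E μ T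
  beta_smooth : ContDiff ℝ ∞ β
  beta_supp : ∀ t, (t ≤ -(5 * h / 8) ∨ -(3 * h / 8) ≤ t) → β t = 0
  beta_int : ∫ t in (-h)..h, β t = 1
  Z_lin : ∀ y, ‖y‖ ≤ h / 4 → Z y = Y y
  Z_zero : ∀ y, h / 2 ≤ ‖y‖ → Z y = 0
  on_box : ∀ x ∈ Φ.source, (mfderiv 𝓘(ℝ, E) 𝓘(ℝ, ℝ × Pal.E d) Φ x (T x) : ℝ × Pal.E d) =
    (0, β (Φ x).1 • Z (Φ x).2)
  off_box : ∀ x ∉ Φ.source, T x = 0

/-- Small twist fields exist. -/
def T_HTA : Prop := ∀ (d : ℕ) (E : Type) [NormedAddCommGroup E] [NormedSpace ℝ E]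
  [FiniteDimensional ℝ E] [MeasurableSpace E] [BorelSpace E] (M : Type) [TopologicalSpace M]
  [ChartedSpace E M] [IsManifold 𝓘(ℝ, E) ∞ M] [T2Space M] [CompactSpace M] [MeasurableSpace M]
  [BorelSpace M] (μ : Measure M) [IsFiniteMeasure μ] (X : ∀ x : M, TangentSpace 𝓘(ℝ, E) x)
  (Φ : OpenPartialHomeomorph M (ℝ × Pal.E d)) (h : ℝ)
  (Ω : Pal.E d →L[ℝ] Pal.E d →L[ℝ] ℝ), Sf Ω → Box E μ X Φ h →
  ∃ (T : (Pal.E d →L[ℝ] Pal.E d) → ∀ x : M, TangentSpace 𝓘(ℝ, E) x) (β : ℝ → ℝ)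
    (Z : (Pal.E d →L[ℝ] Pal.E d) → Pal.E d → Pal.E d),
    (∀ Y, Skew Ω Y → HTw E μ Φ h Y (T Y) β (Z Y)) ∧
    ∀ (r : ℕ) (x₀ : M) (K : Set M) (ε : ℝ), IsCompact K → K ⊆ (extChartAt 𝓘(ℝ, E) x₀).source →
      0 < ε → ∃ δ : ℝ, 0 < δ ∧ ∀ Y : Pal.E d →L[ℝ] Pal.E d, ‖Y‖ < δ →
        CrNear E r X (fun x => X x + T Y x) x₀ K ε

/-- The effect of the twist. -/
def T_HTB : Prop := ∀ (d : ℕ) (E : Type) [NormedAddCommGroup E] [NormedSpace ℝ E]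
  [FiniteDimensional ℝ E] (M : Type) [TopologicalSpace M] [ChartedSpace E M]
  [IsManifold 𝓘(ℝ, E) ∞ M] [T2Space M] [CompactSpace M] [MeasurableSpace M] [BorelSpace M]
  (μ : Measure M) (X T : ∀ x : M, TangentSpace 𝓘(ℝ, E) x) (γ : ℝ → M) (τ : ℝ)
  (Φ : OpenPartialHomeomorph M (ℝ × Pal.E d)) (h : ℝ) (Y : Pal.E d →L[ℝ] Pal.E d) (β : ℝ → ℝ)
  (Z : Pal.E d → Pal.E d) (φ : ℝ → M → M),
  IsSmoothField E X → IsClosedOrbit E X γ τ → OrbitBox E μ X γ τ Φ h → IsFlow E X φ →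
  HTw E μ Φ h Y T β Z →
  IsClosedOrbit E (fun x => X x + T x) γ τ ∧
  ∃ (Φ' : OpenPartialHomeomorph M (ℝ × Pal.E d)) (h' : ℝ),
    OrbitBox E μ (fun x => X x + T x) γ τ Φ' h' ∧
    ∀ φ', IsFlow E (fun x => X x + T x) φ' →
      ∀ᶠ y in 𝓝 (0 : Pal.E d), pm φ' Φ' τ y = NormedSpace.exp Y (pm φ Φ τ y)

/-! ## The theorem -/

/-- The main theorem for closed orbits all of whose exponents vanish. -/
def T_FMN : Prop := ∀ (d : ℕ) (E : Type) [NormedAddCommGroup E] [NormedSpace ℝ E]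
  [FiniteDimensional ℝ E] [MeasurableSpace E] [BorelSpace E] (M : Type) [TopologicalSpace M]
  [ChartedSpace E M] [IsManifold 𝓘(ℝ, E) ∞ M] [T2Space M] [CompactSpace M] [ConnectedSpace M]
  [MeasurableSpace M] [BorelSpace M] (μ : Measure M) (X : ∀ x : M, TangentSpace 𝓘(ℝ, E) x)
  (γ : ℝ → M) (τ : ℝ) (r : ℕ) (Φ : OpenPartialHomeomorph M (ℝ × Pal.E d)) (F : M → M)
  (Ω : Pal.E d →L[ℝ] Pal.E d →L[ℝ] ℝ), IsSmoothVolume E μ →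
  IsSmoothField E X → DivFree E μ X → IsClosedOrbit E X γ τ → IsTimeMap E X τ F →
  γ 0 ∈ Φ.source → Φ (γ 0) = 0 → ContMDiffOn 𝓘(ℝ, E) 𝓘(ℝ, ℝ × Pal.E d) ∞ Φ Φ.source →
  ContMDiffOn 𝓘(ℝ, ℝ × Pal.E d) 𝓘(ℝ, E) ∞ Φ.symm Φ.target →
  (∀ x ∈ Φ.source, (mfderiv 𝓘(ℝ, E) 𝓘(ℝ, ℝ × Pal.E d) Φ x (X x) : ℝ × Pal.E d) = (1, 0)) →
  (∀ A ⊆ Φ.source, MeasurableSet A → μ A = volume (Φ '' A)) → Sf Ω →
  (∀ᶠ y in 𝓝 (0 : Pal.E d), Pres Ω (fderiv ℝ (fun y => (Φ (F (Φ.symm (0, y)))).2) y)) →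
  (∀ z : ℂ, ((fderiv ℝ (fun y => (Φ (F (Φ.symm (0, y)))).2) 0 :
    Pal.E d →ₗ[ℝ] Pal.E d).charpoly.map (algebraMap ℝ ℂ)).IsRoot z → ‖z‖ = 1) →
  Approx E r X {Y | IsSmoothField E Y ∧ IsClosedOrbit E Y γ τ ∧
    AttractsAlmostAll E Y (range γ)}

end Pool.Agent.Zfl
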