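import Mathlib
import Pool.Agent.Zfl.Targets2

/-!
# The logarithm of a symplectic map close to the identity
-/

set_option autoImplicit false

open scoped Topology
open Set Filter Metric
open Pool.Agent.Zex (Sf Pres)

namespace Pool.Agent.Zfl

namespace LOG_

variable {V : Type} [NormedAddCommGroup V] [NormedSpace ℝ V] [FiniteDimensional ℝ V]

/-- The adjoint with respect to `Ω`. -/
theorem adj_exists (Ω : V →L[ℝ] V →L[ℝ] ℝ) (h : Sf Ω) :
    ∃ S : (V →L[ℝ] V) →L[ℝ] (V →L[ℝ] V), ∀ A v w, Ω (S A v) w = Ω v (A w) := by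
  have hinj : Function.Injective (Ω : V →ₗ[ℝ] (V →L[ℝ] ℝ)) := by
    intro a b hab
    have h1 : Ω a = Ω b := hab
    have := h.nd (a - b) (fun w => by rw [map_sub, h1, sub_self]; rfl)
    exact sub_eq_zero.mp this
  have hfin : Module.finrank ℝ V = Module.finrank ℝ (V →L[ℝ] ℝ) := by
    have e : (V →ₗ[ℝ] ℝ) ≃ₗ[ℝ] (V →L[ℝ] ℝ) := LinearMap.toContinuousLinearMap
    rw [← e.finrank_eq]
    exact (Subspace.dual_finrank_eq (K := ℝ) (V := V)).symm
  let T : V ≃L[ℝ] (V →L[ℝ] ℝ) :=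
    (LinearMap.linearEquivOfInjective (Ω : V →ₗ[ℝ] (V →L[ℝ] ℝ)) hinj hfin).toContinuousLinearEquiv
  have hT : ∀ v, T v = Ω v := fun v => rfl
  refine ⟨(ContinuousLinearMap.compL ℝ V (V →L[ℝ] ℝ) V (T.symm : (V →L[ℝ] ℝ) →L[ℝ] V)) ∘L
    ((ContinuousLinearMap.compL ℝ V (V →L[ℝ] ℝ) (V →L[ℝ] ℝ)).flip (T : V →L[ℝ] (V →L[ℝ] ℝ))) ∘L
    (ContinuousLinearMap.compL ℝ V V ℝ).flip, ?_⟩
  intro A v w
  have h2 : ∀ φ : V →L[ℝ] ℝ, Ω (T.symm φ) = φ := fun φ => by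
    rw [← hT]; exact T.apply_symm_apply φ
  simp [h2, hT]

omit [FiniteDimensional ℝ V] in
theorem adj_pow (Ω : V →L[ℝ] V →L[ℝ] ℝ) (h : Sf Ω) (S : (V →L[ℝ] V) →L[ℝ] (V →L[ℝ] V))
    (hS : ∀ A v w, Ω (S A v) w = Ω v (A w)) (A : V →L[ℝ] V) (n : ℕ) : S (A ^ n) = (S A) ^ n := by
  have hext : ∀ v v' : V, (∀ w, Ω v w = Ω v' w) → v = v' := by
    intro v v' hv
    have := h.nd (v - v') (fun w => by rw [map_sub]; simp [hv w])
    exact sub_eq_zero.mp this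
  induction n with
  | zero =>
    ext v
    apply hext
    intro w
    rw [hS]
    simp
  | succ n ih =>
    ext v
    apply hext
    intro w
    rw [hS, pow_succ, pow_succ', mul_apply_eq_comp, mul_apply_eq_comp,
      hS, ← ih, hS]

theorem adj_exp (Ω : V →L[ℝ] V →L[ℝ] ℝ) (h : Sf Ω) (S : (V →L[ℝ] V) →L[ℝ] (V →L[ℝ] V))
    (hS : ∀ A v w, Ω (S A v) w = Ω v (A w)) (A : V →L[ℝ] V) :
    S (NormedSpace.exp A) = NormedSpace.exp (S A) := by
  have h1 := (NormedSpace.exp_series_hasSum_exp' (𝕂 := ℝ) A).mapL S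
  have h2 := NormedSpace.exp_series_hasSum_exp' (𝕂 := ℝ) (S A)
  refine h1.unique ?_
  have h3 : (fun n : ℕ => S (((n.factorial : ℝ)⁻¹) • A ^ n)) =
      fun n : ℕ => ((n.factorial : ℝ)⁻¹) • (S A) ^ n := by
    funext n
    rw [map_smul, adj_pow Ω h S hS]
  rw [h3]
  exact h2

end LOG_

open LOG_ in
/-- The logarithm of a symplectic map close to the identity. -/
theorem p_LOG : T_LOG := by
  intro V _ _ _ Ω ε hΩ hε
  obtain ⟨S, hS⟩ := adj_exists Ω hΩ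
  have hst : HasStrictFDerivAt (NormedSpace.exp : (V →L[ℝ] V) → (V →L[ℝ] V))
      ((ContinuousLinearEquiv.refl ℝ (V →L[ℝ] V) : (V →L[ℝ] V) ≃L[ℝ] (V →L[ℝ] V)) :
        (V →L[ℝ] V) →L[ℝ] (V →L[ℝ] V)) 0 :=
    hasStrictFDerivAt_exp_zero
  set P := hst.toOpenPartialHomeomorph with hP
  have h0 : (0 : V →L[ℝ] V) ∈ P.source := hst.mem_toOpenPartialHomeomorph_source
  obtain ⟨r, hr, hrs⟩ := Metric.isOpen_iff.mp P.open_source 0 h0
  have hinj : Set.InjOn (NormedSpace.exp : (V →L[ℝ] V) → (V →L[ℝ] V)) (ball 0 r) :=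
    P.injOn.mono hrs
  set ρ : ℝ := min ε (min r (r / (‖S‖ + 1))) with hρ
  have hS0 : 0 < ‖S‖ + 1 := by positivity
  have hρ0 : 0 < ρ := lt_min hε (lt_min hr (div_pos hr hS0))
  have hnh : (NormedSpace.exp : (V →L[ℝ] V) → (V →L[ℝ] V)) '' ball 0 ρ ∈
      𝓝 (1 : V →L[ℝ] V) := by
    have := hst.map_nhds_eq_of_equiv
    rw [NormedSpace.exp_zero] at this
    rw [← this]
    exact image_mem_map (ball_mem_nhds 0 hρ0)
  obtain ⟨δ, hδ, hδs⟩ := Metric.mem_nhds_iff.mp hnh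
  refine ⟨δ, hδ, fun B hB hBd => ?_⟩
  have hB1 : B ∈ ball (1 : V →L[ℝ] V) δ := by
    rw [mem_ball, dist_eq_norm]
    exact hBd
  obtain ⟨Y, hY, hYB⟩ := hδs hB1
  have hYn : ‖Y‖ < ρ := by simpa using hY
  refine ⟨Y, ?_, hYn.trans_le (min_le_left _ _), hYB⟩
  have hext : ∀ v v' : V, (∀ w, Ω v w = Ω v' w) → v = v' := by
    intro v v' hv
    have := hΩ.nd (v - v') (fun w => by rw [map_sub]; simp [hv w])
    exact sub_eq_zero.mp this
  have h1 : S B * B = 1 := by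
    ext v
    apply hext
    intro w
    rw [mul_apply_eq_comp, hS, hB v w]
    rfl
  letI : NormedAlgebra ℚ (V →L[ℝ] V) := NormedAlgebra.restrictScalars ℚ ℝ (V →L[ℝ] V)
  have h2 : B * NormedSpace.exp (-Y) = 1 := by
    rw [← hYB, ← NormedSpace.exp_add_of_commute (Commute.refl Y).neg_right, add_neg_cancel,
      NormedSpace.exp_zero]
  have h3 : S B = NormedSpace.exp (-Y) := left_inv_eq_right_inv h1 h2
  have h4 : NormedSpace.exp (S Y) = NormedSpace.exp (-Y) := by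
    rw [← adj_exp Ω hΩ S hS, hYB, h3]
  have h5 : S Y = -Y := by
    apply hinj _ _ h4
    · rw [mem_ball_zero_iff]
      have e1 : ‖S Y‖ ≤ ‖S‖ * ‖Y‖ := S.le_opNorm Y
      have e2 : ‖Y‖ < r / (‖S‖ + 1) :=
        hYn.trans_le ((min_le_right _ _).trans (min_le_right _ _))
      rw [lt_div_iff₀ hS0] at e2
      nlinarith [norm_nonneg Y, norm_nonneg S]
    · rw [mem_ball_zero_iff, norm_neg]
      exact hYn.trans_le ((min_le_right _ _).trans (min_le_left _ _))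
  intro v w
  have h6 := hS Y v w
  rw [h5] at h6
  rw [← h6]
  simp

end Pool.Agent.Zfl
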