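import Pool.Agent.Zfl.Targets2
import Pool.Agent.Zex.SBK

set_option autoImplicit false

/-!
# SBG: the almost invariant function, globally smooth
-/

open Set MeasureTheory Filter Topology Metric Asymptotics
open scoped Manifold ContDiff

namespace Pool.Agent.Zfl

namespace SBG_

/-- the local inverse of a smooth map whose derivative at `0` is the identity -/
lemma inv {V : Type} [NormedAddCommGroup V] [NormedSpace ℝ V] [FiniteDimensional ℝ V]
    (P : V → V) (hP : ContDiff ℝ ∞ P) (hP0 : P 0 = 0)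
    (hP1 : fderiv ℝ P 0 = ContinuousLinearMap.id ℝ V) :
    ∃ Q : V → V, ContDiffAt ℝ ∞ Q 0 ∧ Q 0 = 0 ∧ (∀ᶠ y in 𝓝 (0 : V), P (Q y) = y) ∧
      (∀ᶠ z in 𝓝 (0 : V), Q (P z) = z) ∧ ∀ᶠ y in 𝓝 (0 : V), ContDiffAt ℝ ∞ Q y := by
  have : CompleteSpace V := FiniteDimensional.complete ℝ V
  have hdiff : Differentiable ℝ P := hP.differentiable (by simp)
  have hd : HasFDerivAt P ((ContinuousLinearEquiv.refl ℝ V : V ≃L[ℝ] V) : V →L[ℝ] V) 0 := by
    have h2 := (hdiff 0).hasFDerivAt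
    rw [hP1] at h2
    exact h2
  have hc : ContDiffAt ℝ ∞ P 0 := hP.contDiffAt
  have hn : (∞ : WithTop ℕ∞) ≠ 0 := by simp
  have hQ : ContDiffAt ℝ ∞ (hc.localInverse hd hn) 0 := by
    have h1 := hc.to_localInverse hd hn
    rw [hP0] at h1
    exact h1
  have hQ0 : hc.localInverse hd hn 0 = 0 := by
    have h1 := hc.localInverse_apply_image hd hn
    rw [hP0] at h1
    exact h1
  refine ⟨hc.localInverse hd hn, hQ, hQ0, ?_, ?_, ?_⟩
  · have h1 := (hc.hasStrictFDerivAt' hd hn).eventually_right_inverse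
    rw [hP0] at h1
    exact h1
  · exact (hc.hasStrictFDerivAt' hd hn).eventually_left_inverse
  · -- smoothness near `0`
    have hfd : ContinuousAt (fderiv ℝ P) (hc.localInverse hd hn 0) := by
      have h2 : ContDiff ℝ ∞ (fderiv ℝ P) := hP.fderiv_right (by simp)
      exact h2.continuous.continuousAt
    have hcomp : Tendsto (fun y => fderiv ℝ P (hc.localInverse hd hn y)) (𝓝 0)
        (𝓝 (((ContinuousLinearEquiv.refl ℝ V : V ≃L[ℝ] V) : V →L[ℝ] V))) := by
      have h3 := hfd.tendsto.comp hQ.continuousAt.tendsto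
      rw [hQ0, hP1] at h3
      exact h3
    have hev := hcomp.eventually (ContinuousLinearEquiv.nhds (ContinuousLinearEquiv.refl ℝ V))
    have htar : ∀ᶠ y in 𝓝 (0 : V), y ∈ (hc.toOpenPartialHomeomorph P hd hn).target := by
      have h4 := hc.image_mem_toOpenPartialHomeomorph_target hd hn
      rw [hP0] at h4
      exact (hc.toOpenPartialHomeomorph P hd hn).open_target.mem_nhds h4
    filter_upwards [hev, htar] with y hy1 hy2
    obtain ⟨A, hA⟩ := hy1
    refine (hc.toOpenPartialHomeomorph P hd hn).contDiffAt_symm (f₀' := A) hy2 ?_ ?_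
    · rw [hA]
      exact (hdiff _).hasFDerivAt
    · exact hP.contDiffAt

/-- a germ of a smooth function is the germ of a globally smooth function -/
lemma glob {V : Type} [NormedAddCommGroup V] [NormedSpace ℝ V] [FiniteDimensional ℝ V]
    (f : V → ℝ) (hf : ∀ᶠ y in 𝓝 (0 : V), ContDiffAt ℝ ∞ f y) :
    ∃ g : V → ℝ, ContDiff ℝ ∞ g ∧ g =ᶠ[𝓝 0] f := by
  obtain ⟨ρ, hρ, h4⟩ := Metric.eventually_nhds_iff_ball.mp hf
  let χ : ContDiffBump (0 : V) := ⟨ρ / 3, ρ / 2, by positivity, by linarith⟩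
  refine ⟨fun y => χ y * f y, ?_, ?_⟩
  · rw [contDiff_iff_contDiffAt]
    intro y
    by_cases hy : y ∈ ball (0 : V) ρ
    · exact χ.contDiffAt.mul (h4 y hy)
    · have h5 : (fun y => χ y * f y) =ᶠ[𝓝 y] fun _ => (0 : ℝ) := by
        have h6 : ∀ᶠ z in 𝓝 y, z ∈ (closedBall (0 : V) (ρ / 2))ᶜ := by
          refine isClosed_closedBall.isOpen_compl.mem_nhds ?_
          simp only [mem_compl_iff, mem_closedBall, not_le]
          simp only [mem_ball, not_lt] at hy
          linarith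
        filter_upwards [h6] with z hz
        have h7 : χ z = 0 := by
          apply χ.zero_of_le_dist
          simp only [mem_compl_iff, mem_closedBall, not_le] at hz
          exact hz.le
        rw [h7, zero_mul]
      exact contDiffAt_const.congr_of_eventuallyEq h5
  · filter_upwards [closedBall_mem_nhds (0 : V) (by positivity : (0 : ℝ) < ρ / 3)] with y hy
    have h8 : χ y = 1 := χ.one_of_mem_closedBall hy
    rw [h8, one_mul]

end SBG_

theorem p_SBG (h1 : Zex.T_NF) (h2 : Zex.T_ACT) (h3 : Zex.T_ANV) : T_SBG := by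
  intro V _ _ _ Ω L J r T hΩ hell hr hT0 hT hTL hTS
  obtain ⟨P, N, hP, hN, hP0, hN0, hP1, hNR, hTP⟩ := h1 V Ω L J r T hΩ hell hr hT0 hT hTL
  obtain ⟨ha, ha0, ha1, b, hb, hab⟩ := h2 V Ω J P hell.cs hP hP0 hP1
  have hinv := h3 V Ω L J r T P N hΩ hell hr hT0 hT hTS hP hN hP0 hN0 hP1 hNR hTP
  obtain ⟨Q, hQ, hQ0, hPQ, hQP, hQs⟩ := SBG_.inv P hP hP0 hP1
  obtain ⟨C, hC, hmv⟩ := Zex.SBK_.mvt (Zex.act Ω J P) ha ha1
  obtain ⟨g, hg, hgQ⟩ := SBG_.glob (fun y => Zex.act Ω J P (Q y))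
    (hQs.mono fun y hy => (ha.contDiffAt (x := Q y)).comp y hy)
  -- continuity at `0`
  have hQd : DifferentiableAt ℝ Q 0 := hQ.differentiableAt (by simp)
  have hPd : DifferentiableAt ℝ P 0 := (hP.differentiable (by simp)).differentiableAt
  have hNd : DifferentiableAt ℝ N 0 := (hN.differentiable (by simp)).differentiableAt
  have hTd : DifferentiableAt ℝ T 0 := hT.differentiableAt (by
    have : r ≠ 0 := by omega
    exact_mod_cast this)
  have hQt : Tendsto Q (𝓝 0) (𝓝 0) := by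
    have := hQd.continuousAt.tendsto
    rwa [hQ0] at this
  have hPt : Tendsto P (𝓝 0) (𝓝 0) := by
    have := hPd.continuousAt.tendsto
    rwa [hP0] at this
  have hNt : Tendsto N (𝓝 0) (𝓝 0) := by
    have := hNd.continuousAt.tendsto
    rwa [hN0] at this
  have hTt : Tendsto T (𝓝 0) (𝓝 0) := by
    have := hTd.continuousAt.tendsto
    rwa [hT0] at this
  have bigO : ∀ f : V → V, DifferentiableAt ℝ f 0 → f 0 = 0 → f =O[𝓝 0] (fun z : V => z) := by
    intro f hf hf0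
    have h4 := hf.isBigO_sub
    simpa [hf0] using h4
  have hQO := bigO Q hQd hQ0
  have hPO := bigO P hPd hP0
  have hNO := bigO N hNd hN0
  have hTO := bigO T hTd hT0
  -- the map `w z = Q (T (P z))`
  have hTPt : Tendsto (fun z => T (P z)) (𝓝 0) (𝓝 0) := hTt.comp hPt
  have hPNt : Tendsto (fun z => P (N z)) (𝓝 0) (𝓝 0) := hPt.comp hNt
  have hwt : Tendsto (fun z => Q (T (P z))) (𝓝 0) (𝓝 0) := hQt.comp hTPt
  have hwO : (fun z => Q (T (P z))) =O[𝓝 0] (fun z : V => z) :=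
    (hQO.comp_tendsto hTPt).trans ((hTO.comp_tendsto hPt).trans hPO)
  have hstr : HasStrictFDerivAt Q (fderiv ℝ Q 0) 0 := hQ.hasStrictFDerivAt (by simp)
  have hdiff : (fun z => Q (T (P z)) - N z) =o[𝓝 0] (fun z : V => ‖z‖ ^ r) := by
    have h4 : (fun z => Q (T (P z)) - Q (P (N z))) =O[𝓝 0] (fun z => T (P z) - P (N z)) := by
      have h5 := hstr.isBigO_sub
      have h6 : Tendsto (fun z => (T (P z), P (N z))) (𝓝 0) (𝓝 ((0 : V), (0 : V))) := by
        rw [nhds_prod_eq]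
        exact hTPt.prodMk hPNt
      exact h5.comp_tendsto h6
    have h5 := h4.trans_isLittleO hTP
    have h6 : ∀ᶠ z in 𝓝 (0 : V), Q (P (N z)) = N z := hNt.eventually hQP
    refine h5.congr' ?_ EventuallyEq.rfl
    filter_upwards [h6] with z hz
    rw [hz]
  have hact : (fun z => Zex.act Ω J P (Q (T (P z))) - Zex.act Ω J P (N z)) =o[𝓝 0]
      (fun z : V => ‖z‖ ^ (r + 1)) := by
    have h4 : (fun z => Zex.act Ω J P (Q (T (P z))) - Zex.act Ω J P (N z)) =O[𝓝 0]
        (fun z => (‖Q (T (P z))‖ + ‖N z‖) * ‖Q (T (P z)) - N z‖) := by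
      have h6 : Tendsto (fun z => (Q (T (P z)), N z)) (𝓝 0) (𝓝 ((0 : V), (0 : V))) := by
        rw [nhds_prod_eq]
        exact hwt.prodMk hNt
      refine IsBigO.of_bound C ?_
      filter_upwards [h6.eventually hmv] with z hz
      have e : ‖(‖Q (T (P z))‖ + ‖N z‖) * ‖Q (T (P z)) - N z‖‖
          = (‖Q (T (P z))‖ + ‖N z‖) * ‖Q (T (P z)) - N z‖ := by
        rw [Real.norm_of_nonneg (by positivity)]
      rw [e, ← mul_assoc]
      exact hz
    have h5 : (fun z => ‖Q (T (P z))‖ + ‖N z‖) =O[𝓝 0] (fun z : V => ‖z‖) :=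
      (hwO.norm_norm).add (hNO.norm_norm)
    have h6 : (fun z => (‖Q (T (P z))‖ + ‖N z‖) * ‖Q (T (P z)) - N z‖) =o[𝓝 0]
        (fun z : V => ‖z‖ * ‖z‖ ^ r) := h5.mul_isLittleO hdiff.norm_left
    have h7 := h4.trans_isLittleO h6
    refine h7.congr_right fun z => ?_
    rw [pow_succ, mul_comm]
  have hF : (fun z => Zex.act Ω J P (Q (T (P z))) - Zex.act Ω J P z) =o[𝓝 0]
      (fun z : V => ‖z‖ ^ (r + 1)) := by
    refine (hact.add hinv).congr_left fun z => ?_
    ring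
  refine ⟨g, b / 4, hg, ?_, by positivity, ?_, ?_⟩
  · rw [hgQ.self_of_nhds]
    show Zex.act Ω J P (Q 0) = 0
    rw [hQ0, ha0]
  · have h4 : ∀ᶠ z in 𝓝 (0 : V), ‖P z‖ ≤ 2 * ‖z‖ := by
      have h5 := hPd.hasFDerivAt
      rw [hP1] at h5
      have h6 := h5.isLittleO
      rw [isLittleO_iff] at h6
      filter_upwards [h6 (c := 1) one_pos] with z hz
      simp only [hP0, sub_zero, ContinuousLinearMap.id_apply, one_mul] at hz
      calc ‖P z‖ = ‖(P z - z) + z‖ := by rw [sub_add_cancel]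
        _ ≤ ‖P z - z‖ + ‖z‖ := norm_add_le _ _
        _ ≤ 2 * ‖z‖ := by linarith
    filter_upwards [hQt.eventually h4, hQt.eventually hab, hPQ, hgQ] with y hy1 hy2 hy3 hy4
    rw [hy3] at hy1
    rw [hy4]
    show b / 4 * ‖y‖ ^ 2 ≤ Zex.act Ω J P (Q y)
    have h5 : ‖y‖ ^ 2 ≤ (2 * ‖Q y‖) ^ 2 := pow_le_pow_left₀ (norm_nonneg _) hy1 2
    show b / 4 * ‖y‖ ^ 2 ≤ Zex.act Ω J P (Q y)
    nlinarith
  · have h4 := hF.comp_tendsto hQt
    have h5 : ((fun z : V => ‖z‖ ^ (r + 1)) ∘ Q) =O[𝓝 0] (fun y : V => ‖y‖ ^ (r + 1)) :=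
      (hQO.norm_norm).pow (r + 1)
    have h6 := h4.trans_isBigO h5
    refine h6.congr' ?_ EventuallyEq.rfl
    filter_upwards [hPQ, hgQ, hTt.eventually hgQ] with y hy hy2 hy3
    show Zex.act Ω J P (Q (T (P (Q y)))) - Zex.act Ω J P (Q y) = _
    rw [hy, hy2, hy3]

end Pool.Agent.Zfl
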