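import Pool.Agent.Zfl.Targets2

/-!
# A chart in which the field is constant contains a box
-/

set_option autoImplicit false
set_option linter.unusedSectionVars false

open scoped Manifold ContDiff Topology
open MeasureTheory Set Filter Bundle Asymptotics Metric Pool.Agent.Palis

namespace Pool.Agent.Zfl

theorem p_SBX : T_SBX := by
  intro d E _ _ _ M _ _ _ _ μ X p Φ hp hp0 hsm hsms hfield hmeas
  have h0t : (0 : ℝ × Pal.E d) ∈ Φ.target := by
    rw [← hp0]
    exact Φ.map_source hp
  have hsymm0 : Φ.symm 0 = p := by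
    rw [← hp0]
    exact Φ.left_inv hp
  obtain ⟨h, hh, hball⟩ := Metric.mem_nhds_iff.1 (Φ.open_target.mem_nhds h0t)
  set s : Set (ℝ × Pal.E d) := Ioo (-h) h ×ˢ ball 0 h with hs
  have hso : IsOpen s := isOpen_Ioo.prod isOpen_ball
  have hst : s ⊆ Φ.target := by
    intro z hz
    apply hball
    rw [mem_ball_zero_iff, Prod.norm_def, max_lt_iff]
    refine ⟨?_, ?_⟩
    · rw [Real.norm_eq_abs, abs_lt]
      exact ⟨by linarith [hz.1.1], by linarith [hz.1.2]⟩
    · have := hz.2
      rw [mem_ball_zero_iff] at this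
      exact this
  set Φ' : OpenPartialHomeomorph M (ℝ × Pal.E d) := (Φ.symm.restrOpen s hso).symm with hΦ'
  have htar : Φ'.target = s := by
    show Φ.symm.source ∩ s = s
    exact inter_eq_right.2 hst
  have hsrc : Φ'.source ⊆ Φ.source := by
    intro x hx
    have h1 := Φ'.map_source hx
    rw [htar] at h1
    have h2 : Φ.symm (Φ' x) = x := Φ'.left_inv hx
    rw [← h2]
    exact Φ.map_target (hst h1)
  have htsub : Φ'.target ⊆ Φ.target := by
    rw [htar]
    exact hst
  have hcoe : (Φ' : M → ℝ × Pal.E d) = Φ := rfl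
  have hcoes : (Φ'.symm : ℝ × Pal.E d → M) = Φ.symm := rfl
  have h0s : (0 : ℝ × Pal.E d) ∈ Φ'.target := by
    rw [htar]
    exact ⟨⟨by simpa using hh, by simpa using hh⟩, mem_ball_self hh⟩
  have hps : p ∈ Φ'.source := by
    have := Φ'.map_target h0s
    rwa [hcoes, hsymm0] at this
  refine ⟨Φ', h, ⟨hh, htar, ?_, ?_, ?_, ?_, ?_, ?_⟩, hps, hcoe, hcoes⟩
  · exact hsm.mono hsrc
  · exact hsms.mono htsub
  · intro x hx
    exact hfield x (hsrc hx)
  · exact contDiffOn_const
  · intro z _
    exact one_pos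
  · intro A hA hmA
    rw [hmeas A (hA.trans hsrc) hmA, hcoe]
    simp

end Pool.Agent.Zfl
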