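import Pool.Agent.PalF.FINAL
import Pool.Agent.Zex.FINAL
import Pool.Agent.Zfl.LOG
import Pool.Agent.Zfl.LNF
import Pool.Agent.Zfl.SBG
import Pool.Agent.Zfl.SBX
import Pool.Agent.Zfl.OBY
import Pool.Agent.Zfl.HTA
import Pool.Agent.Zfl.HTB
import Pool.Agent.Zfl.FMN

/-!
# Closed orbits all of whose exponents vanish: assembly
-/

set_option autoImplicit false

namespace Pool.Agent.Zfl

theorem tLNF : T_LNF := p_LNF Zex.tLIN Zex.p_INV p_LOG

theorem tSBG : T_SBG := p_SBG Zex.tNF Zex.p_ACT Zex.tANV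

theorem tHTA : T_HTA := p_HTA PalF.pul1 PalF.ibp1

theorem tFMN : T_FMN := p_FMN PalF.tFLM PalF.vol1 PalF.dvr1 PalF.tENG Zex.p_GRW tLNF tSBG p_SBX
  p_OBY tHTA p_HTB

end Pool.Agent.Zfl
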