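import Pool.Agent.Zfl.Core

/-!
# Targets: the lemmas on flow boxes of `PalF` in every dimension
-/

set_option autoImplicit false

open scoped Manifold ContDiff Topology
open MeasureTheory Set Filter Bundle Asymptotics Metric Pool.Agent.Palis
open Pool.Agent.PalF (IsSmoothVolume DivFree AttractsAlmostAll IsClosedOrbit IsTimeMap val der
  QuadMin AlmostInvariant IsSmoothField HasDiv IsFlow CrNear Approx avg)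

namespace Pool.Agent.Zfl

/-- The flow in a flow box is a translation. -/
def T_BXF : Prop := ∀ (d : ℕ) (E : Type) [NormedAddCommGroup E] [NormedSpace ℝ E]
  [FiniteDimensional ℝ E] (M : Type) [TopologicalSpace M] [ChartedSpace E M]
  [IsManifold 𝓘(ℝ, E) ∞ M] [T2Space M] [CompactSpace M] [MeasurableSpace M] (μ : Measure M)
  (X : ∀ x : M, TangentSpace 𝓘(ℝ, E) x) (Φ : OpenPartialHomeomorph M (ℝ × Pal.E d)) (h : ℝ)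
  (g : ℝ × Pal.E d → ℝ) (φ : ℝ → M → M), IsSmoothField E X → PreBox E μ X Φ h g → IsFlow E X φ →
  ∀ x ∈ Φ.source, ∀ s : ℝ, |(Φ x).1 + s| < h →
    φ s x ∈ Φ.source ∧ Φ (φ s x) = ((Φ x).1 + s, (Φ x).2)

/-- Small boxes around a point of a closed orbit are orbit boxes. -/
def T_OBX : Prop := ∀ (d : ℕ) (E : Type) [NormedAddCommGroup E] [NormedSpace ℝ E]
  [FiniteDimensional ℝ E] (M : Type) [TopologicalSpace M] [ChartedSpace E M]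
  [IsManifold 𝓘(ℝ, E) ∞ M] [T2Space M] [CompactSpace M] [MeasurableSpace M] (μ : Measure M)
  (X : ∀ x : M, TangentSpace 𝓘(ℝ, E) x) (γ : ℝ → M) (τ : ℝ)
  (Φ : OpenPartialHomeomorph M (ℝ × Pal.E d)) (h : ℝ), IsSmoothField E X → IsClosedOrbit E X γ τ →
  Box E μ X Φ h → γ 0 ∈ Φ.source → Φ (γ 0) = 0 →
  ∃ (Φ' : OpenPartialHomeomorph M (ℝ × Pal.E d)) (h' : ℝ), OrbitBox E μ X γ τ Φ' h'

/-- The closed orbit in an orbit box. -/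
def T_OBF : Prop := ∀ (d : ℕ) (E : Type) [NormedAddCommGroup E] [NormedSpace ℝ E]
  [FiniteDimensional ℝ E] (M : Type) [TopologicalSpace M] [ChartedSpace E M]
  [IsManifold 𝓘(ℝ, E) ∞ M] [T2Space M] [CompactSpace M] [MeasurableSpace M] (μ : Measure M)
  (X : ∀ x : M, TangentSpace 𝓘(ℝ, E) x) (γ : ℝ → M) (τ : ℝ)
  (Φ : OpenPartialHomeomorph M (ℝ × Pal.E d)) (h : ℝ) (φ : ℝ → M → M), IsSmoothField E X →
  IsClosedOrbit E X γ τ → OrbitBox E μ X γ τ Φ h → IsFlow E X φ →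
  (∀ s t, φ s (γ t) = γ (s + t)) ∧ (∀ s, γ (s + τ) = γ s) ∧
    (∀ t, |t| < h → γ t ∈ Φ.source ∧ Φ (γ t) = (t, 0)) ∧
    ∀ s, γ s ∈ Φ.source → ∃ k : ℤ, s = k * τ + (Φ (γ s)).1

/-- The return map is a local diffeomorphism. -/
def T_PM1 : Prop := ∀ (d : ℕ) (E : Type) [NormedAddCommGroup E] [NormedSpace ℝ E]
  [FiniteDimensional ℝ E] (M : Type) [TopologicalSpace M] [ChartedSpace E M]
  [IsManifold 𝓘(ℝ, E) ∞ M] [T2Space M] [CompactSpace M] [MeasurableSpace M] (μ : Measure M)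
  (X : ∀ x : M, TangentSpace 𝓘(ℝ, E) x) (γ : ℝ → M) (τ : ℝ)
  (Φ : OpenPartialHomeomorph M (ℝ × Pal.E d)) (h : ℝ) (φ : ℝ → M → M), IsSmoothField E X →
  IsClosedOrbit E X γ τ → OrbitBox E μ X γ τ Φ h → IsFlow E X φ →
  ∀ τ' : ℝ, (τ' = τ ∨ τ' = -τ) → pm φ Φ τ' 0 = 0 ∧ ContDiffAt ℝ ∞ (pm φ Φ τ') 0 ∧
    ∃ δ : ℝ, 0 < δ ∧ δ ≤ h ∧ ∀ y : Pal.E d, ‖y‖ < δ → φ τ' (Φ.symm (0, y)) ∈ Φ.source ∧
      |(Φ (φ τ' (Φ.symm (0, y)))).1| < h / 16 ∧ ‖pm φ Φ τ' y‖ < h ∧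
      ContDiffAt ℝ ∞ (pm φ Φ τ') y ∧ pm φ Φ (-τ') (pm φ Φ τ' y) = y ∧
      ∀ t : ℝ, |t| ≤ 7 * h / 8 → φ τ' (Φ.symm (t, y)) ∈ Φ.source ∧
        Φ (φ τ' (Φ.symm (t, y))) = ((Φ (φ τ' (Φ.symm (0, y)))).1 + t, pm φ Φ τ' y)

open Classical in
/-- A function on `M` given in the coordinates `Φ`. -/
noncomputable def bmp {M : Type} {d : ℕ} [TopologicalSpace M] (Φ : OpenPartialHomeomorph M (ℝ × Pal.E d))
    (f : ℝ × Pal.E d → ℝ) (x : M) : ℝ := if x ∈ Φ.source then f (Φ x) else 0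

/-- The almost invariant function. -/
noncomputable def intI {M : Type} {d : ℕ} [TopologicalSpace M] (Φ : OpenPartialHomeomorph M (ℝ × Pal.E d))
    (φ : ℝ → M → M) (τ : ℝ) (f₀ : ℝ × Pal.E d → ℝ) (I₀ : Pal.E d → ℝ) (θ : M → ℝ) (x : M) : ℝ :=
  θ x * (avg φ τ (bmp Φ (fun z => f₀ z * I₀ z.2)) x / avg φ τ (bmp Φ f₀) x)

/-- The data of the almost invariant function. -/
structure IntData (E : Type) [NormedAddCommGroup E] [NormedSpace ℝ E] {M : Type} {d : ℕ}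
    [TopologicalSpace M] [ChartedSpace E M] [IsManifold 𝓘(ℝ, E) ∞ M] [MeasurableSpace M]
    (μ : Measure M) (X : ∀ x : M, TangentSpace 𝓘(ℝ, E) x) (γ : ℝ → M) (τ : ℝ)
    (Φ : OpenPartialHomeomorph M (ℝ × Pal.E d)) (h : ℝ) (φ : ℝ → M → M) (f₀ : ℝ × Pal.E d → ℝ)
    (I₀ : Pal.E d → ℝ) (b : ℝ) (θ : M → ℝ) : Prop where
  field : IsSmoothField E X
  orbit : IsClosedOrbit E X γ τ
  box : OrbitBox E μ X γ τ Φ h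
  flow : IsFlow E X φ
  f_smooth : ContDiff ℝ ∞ f₀
  f_nonneg : ∀ z, 0 ≤ f₀ z
  f_supp : ∀ z, f₀ z ≠ 0 → |z.1| ≤ h / 4 ∧ ‖z.2‖ ≤ h / 4
  f_pos : ∀ᶠ z in 𝓝 (0 : ℝ × Pal.E d), 0 < f₀ z
  I_smooth : ContDiff ℝ ∞ I₀
  I_zero : I₀ 0 = 0
  b_pos : 0 < b
  I_low : ∀ᶠ y in 𝓝 (0 : Pal.E d), b * ‖y‖ ^ 2 ≤ I₀ y
  θ_smooth : ContMDiff 𝓘(ℝ, E) 𝓘(ℝ, ℝ) ∞ θ
  θ_one : ∀ᶠ x in 𝓝ˢ (range γ), θ x = 1
  θ_supp : tsupport θ ⊆ {x | 0 < avg φ τ (bmp Φ f₀) x}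

/-- Functions given in the flow box are smooth on `M`. -/
def T_BMP : Prop := ∀ (d : ℕ) (E : Type) [NormedAddCommGroup E] [NormedSpace ℝ E]
  [FiniteDimensional ℝ E] (M : Type) [TopologicalSpace M] [ChartedSpace E M]
  [IsManifold 𝓘(ℝ, E) ∞ M] [T2Space M] [CompactSpace M] [MeasurableSpace M] (μ : Measure M)
  (X : ∀ x : M, TangentSpace 𝓘(ℝ, E) x) (Φ : OpenPartialHomeomorph M (ℝ × Pal.E d)) (h : ℝ)
  (f : ℝ × Pal.E d → ℝ), Box E μ X Φ h → ContDiff ℝ ∞ f →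
  (∀ z, f z ≠ 0 → |z.1| ≤ h / 4 ∧ ‖z.2‖ ≤ h / 4) → ContMDiff 𝓘(ℝ, E) 𝓘(ℝ, ℝ) ∞ (bmp Φ f)

/-- The data exist. -/
def T_IVD : Prop := ∀ (d : ℕ) (E : Type) [NormedAddCommGroup E] [NormedSpace ℝ E]
  [FiniteDimensional ℝ E] (M : Type) [TopologicalSpace M] [ChartedSpace E M]
  [IsManifold 𝓘(ℝ, E) ∞ M] [T2Space M] [CompactSpace M] [MeasurableSpace M] (μ : Measure M)
  (X : ∀ x : M, TangentSpace 𝓘(ℝ, E) x) (γ : ℝ → M) (τ : ℝ)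
  (Φ : OpenPartialHomeomorph M (ℝ × Pal.E d)) (h : ℝ) (φ : ℝ → M → M) (I₀ : Pal.E d → ℝ) (b : ℝ),
  IsSmoothField E X → IsClosedOrbit E X γ τ → OrbitBox E μ X γ τ Φ h → IsFlow E X φ →
  ContDiff ℝ ∞ I₀ → I₀ 0 = 0 → 0 < b → (∀ᶠ y in 𝓝 (0 : Pal.E d), b * ‖y‖ ^ 2 ≤ I₀ y) →
  ∃ f₀ θ, IntData E μ X γ τ Φ h φ f₀ I₀ b θ

/-- The almost invariant function is smooth. -/
def T_IVS : Prop := ∀ (d : ℕ) (E : Type) [NormedAddCommGroup E] [NormedSpace ℝ E]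
  [FiniteDimensional ℝ E] (M : Type) [TopologicalSpace M] [ChartedSpace E M]
  [IsManifold 𝓘(ℝ, E) ∞ M] [T2Space M] [CompactSpace M] [MeasurableSpace M] (μ : Measure M)
  (X : ∀ x : M, TangentSpace 𝓘(ℝ, E) x) (γ : ℝ → M) (τ : ℝ)
  (Φ : OpenPartialHomeomorph M (ℝ × Pal.E d)) (h : ℝ) (φ : ℝ → M → M) (f₀ : ℝ × Pal.E d → ℝ)
  (I₀ : Pal.E d → ℝ) (b : ℝ) (θ : M → ℝ), IntData E μ X γ τ Φ h φ f₀ I₀ b θ →
  ContMDiff 𝓘(ℝ, E) 𝓘(ℝ, ℝ) ∞ (intI Φ φ τ f₀ I₀ θ) ∧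
  ∀ᶠ x in 𝓝ˢ (range γ), 0 < avg φ τ (bmp Φ f₀) x ∧
    lieD (intI Φ φ τ f₀ I₀ θ) X x * avg φ τ (bmp Φ f₀) x =
      (bmp Φ (fun z => f₀ z * I₀ z.2) (φ τ x) - intI Φ φ τ f₀ I₀ θ x * bmp Φ f₀ (φ τ x)) -
      (bmp Φ (fun z => f₀ z * I₀ z.2) x - intI Φ φ τ f₀ I₀ θ x * bmp Φ f₀ x)

/-- Orbits near the closed orbit. -/
def T_OSC : Prop := ∀ (d : ℕ) (E : Type) [NormedAddCommGroup E] [NormedSpace ℝ E]
  [FiniteDimensional ℝ E] (M : Type) [TopologicalSpace M] [ChartedSpace E M]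
  [IsManifold 𝓘(ℝ, E) ∞ M] [T2Space M] [CompactSpace M] [MeasurableSpace M] (μ : Measure M)
  (X : ∀ x : M, TangentSpace 𝓘(ℝ, E) x) (γ : ℝ → M) (τ : ℝ)
  (Φ : OpenPartialHomeomorph M (ℝ × Pal.E d)) (h : ℝ) (φ : ℝ → M → M), IsSmoothField E X →
  IsClosedOrbit E X γ τ → OrbitBox E μ X γ τ Φ h → IsFlow E X φ →
  ∀ η > (0 : ℝ), ∀ᶠ x in 𝓝ˢ (range γ), ∃ y : Pal.E d, ‖y‖ < η ∧ ‖pm φ Φ τ y‖ < η ∧
    ∀ s ∈ Icc 0 τ, φ s x ∈ Φ.source → |(Φ (φ s x)).1| ≤ h / 4 → ‖(Φ (φ s x)).2‖ ≤ h / 4 →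
      ((Φ (φ s x)).2 = y ∨ (Φ (φ s x)).2 = pm φ Φ τ y)

/-- The lower bound for the almost invariant function. -/
def T_IVQ : Prop := ∀ (d : ℕ) (E : Type) [NormedAddCommGroup E] [NormedSpace ℝ E]
  [FiniteDimensional ℝ E] (M : Type) [TopologicalSpace M] [ChartedSpace E M]
  [IsManifold 𝓘(ℝ, E) ∞ M] [T2Space M] [CompactSpace M] [MeasurableSpace M] (μ : Measure M)
  (X : ∀ x : M, TangentSpace 𝓘(ℝ, E) x) (γ : ℝ → M) (τ : ℝ)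
  (Φ : OpenPartialHomeomorph M (ℝ × Pal.E d)) (h : ℝ) (φ : ℝ → M → M) (f₀ : ℝ × Pal.E d → ℝ)
  (I₀ : Pal.E d → ℝ) (b : ℝ) (θ : M → ℝ), IntData E μ X γ τ Φ h φ f₀ I₀ b θ →
  QuadMin E (intI Φ φ τ f₀ I₀ θ) (range γ)

/-- The almost invariance. -/
def T_IVA : Prop := ∀ (d : ℕ) (E : Type) [NormedAddCommGroup E] [NormedSpace ℝ E]
  [FiniteDimensional ℝ E] (M : Type) [TopologicalSpace M] [ChartedSpace E M]
  [IsManifold 𝓘(ℝ, E) ∞ M] [T2Space M] [CompactSpace M] [MeasurableSpace M] (μ : Measure M)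
  (X : ∀ x : M, TangentSpace 𝓘(ℝ, E) x) (γ : ℝ → M) (τ : ℝ)
  (Φ : OpenPartialHomeomorph M (ℝ × Pal.E d)) (h : ℝ) (φ : ℝ → M → M) (f₀ : ℝ × Pal.E d → ℝ)
  (I₀ : Pal.E d → ℝ) (b : ℝ) (θ : M → ℝ) (r : ℕ), IntData E μ X γ τ Φ h φ f₀ I₀ b θ →
  (fun y => I₀ (pm φ Φ τ y) - I₀ y) =o[𝓝 0] (fun y => ‖y‖ ^ (r + 1)) →
  AlmostInvariant E r X (intI Φ φ τ f₀ I₀ θ) (range γ)

end Pool.Agent.Zfl
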